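import Mathlib
import Pool.Agent.W943.Ork1
import Pool.Agent.H530R2.Rnk1

/-!
Families of classes of polynomials of bounded rank in every variable over a chain of primes which
loses one step under differentiation, relative to a set of free variables, and the family generated
by one more polynomial. (The arguments follow `Pool.Agent.H530R2.Tre2`.)
-/

set_option autoImplicit false

namespace Pool.Agent.TH668.Orf

open MvPolynomial Module Pool.Agent.H530R2 Pool.Agent.W943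

universe v

/-- the constants of a family -/
structure CstO where
  /-- constants -/
  cc : ℕ
  /-- sums -/
  ad : ℕ → ℕ
  /-- products -/
  ml : ℕ → ℕ
  /-- derivatives -/
  der : ℕ → ℕ
  /-- ranks -/
  bd : ℕ → ℕ
  /-- levels -/
  sd : ℕ → ℕ

/-- growth for products -/
def CstO.pr (p : CstO) (W : ℕ) : ℕ → ℕ
  | 0 => p.cc
  | k + 1 => p.pr W k + p.ml (W + p.pr W k)

/-- growth for sums -/
def CstO.sm (p : CstO) (W : ℕ) : ℕ → ℕ
  | 0 => p.cc
  | k + 1 => p.sm W k + p.ad (W + p.sm W k)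

theorem CstO.pr_mono (p : CstO) (W : ℕ) {k k' : ℕ} (h : k ≤ k') : p.pr W k ≤ p.pr W k' := by
  induction k', h using Nat.le_induction with
  | base => exact le_rfl
  | succ b _ ih => exact ih.trans (Nat.le_add_right _ _)

theorem CstO.sm_mono (p : CstO) (W : ℕ) {k k' : ℕ} (h : k ≤ k') : p.sm W k ≤ p.sm W k' := by
  induction k', h using Nat.le_induction with
  | base => exact le_rfl
  | succ b _ ih => exact ih.trans (Nat.le_add_right _ _)

/-- growth for determinants -/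
def CstO.dt (p : CstO) (W Q : ℕ) : ℕ := p.sm (p.ml (p.cc + p.pr W Q)) Q.factorial

/-- the level for minors -/
def CstO.em (p : CstO) (r W : ℕ) : ℕ := p.sd (p.dt (p.der W) r)

/-- families of classes of polynomials of bounded rank in every variable -/
structure LFamO {F : Type v} [Field F] {n : ℕ} (V : DChain F n) (p : CstO)
    (Y₀ : Finset (Fin n)) where
  /-- the classes -/
  K : ℕ → Set (MvPolynomial (Fin n) F)
  mono : ∀ {W W' : ℕ}, W ≤ W' → K W ⊆ K W'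
  const_mem : ∀ c : F, C c ∈ K p.cc
  add_mem : ∀ {W : ℕ} {f g : MvPolynomial (Fin n) F}, f ∈ K W → g ∈ K W → f + g ∈ K (p.ad W)
  mul_mem : ∀ {W : ℕ} {f g : MvPolynomial (Fin n) F}, f ∈ K W → g ∈ K W → f * g ∈ K (p.ml W)
  der_mem : ∀ {W : ℕ} (k : Fin n) {f : MvPolynomial (Fin n) F}, f ∈ K W →
    pderiv k f ∈ K (p.der W)
  bd_mem : ∀ {W : ℕ} {f : MvPolynomial (Fin n) F}, f ∈ K W → ∀ i, Bdl i (p.bd W) f
  seeds : ∀ (W : ℕ), ∀ f ∈ K W, ∀ Y, Y₀ ⊆ Y → f ∈ V.O (p.sd W) Y → f = 0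

section basic

variable {F : Type v} [Field F] {n : ℕ} {V : DChain F n} {p : CstO} {Y₀ : Finset (Fin n)}

/-- larger sets of free variables -/
def LFamO.weaken (𝔏 : LFamO V p Y₀) {Y₁ : Finset (Fin n)} (h : Y₀ ⊆ Y₁) : LFamO V p Y₁ where
  K := 𝔏.K
  mono := 𝔏.mono
  const_mem := 𝔏.const_mem
  add_mem := 𝔏.add_mem
  mul_mem := 𝔏.mul_mem
  der_mem := 𝔏.der_mem
  bd_mem := 𝔏.bd_mem
  seeds W f hf Y hY := 𝔏.seeds W f hf Y (h.trans hY)

theorem LFamO.prod_mem (𝔏 : LFamO V p Y₀) {W : ℕ} {κ : Type*} (s : Finset κ)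
    (f : κ → MvPolynomial (Fin n) F) (h : ∀ k ∈ s, f k ∈ 𝔏.K W) :
    ∏ k ∈ s, f k ∈ 𝔏.K (p.pr W s.card) := by
  classical
  induction s using Finset.induction_on with
  | empty => rw [Finset.prod_empty, Finset.card_empty, ← C_1]; exact 𝔏.const_mem 1
  | insert k s hk ih =>
    rw [Finset.prod_insert hk, Finset.card_insert_of_notMem hk]
    refine 𝔏.mono (Nat.le_add_left _ _) (𝔏.mul_mem (W := W + p.pr W s.card) ?_ ?_)
    · exact 𝔏.mono (Nat.le_add_right _ _) (h k (Finset.mem_insert_self _ _))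
    · exact 𝔏.mono (Nat.le_add_left _ _) (ih fun k' hk' => h k' (Finset.mem_insert_of_mem hk'))

theorem LFamO.sum_mem (𝔏 : LFamO V p Y₀) {W : ℕ} {κ : Type*} (s : Finset κ)
    (f : κ → MvPolynomial (Fin n) F) (h : ∀ k ∈ s, f k ∈ 𝔏.K W) :
    ∑ k ∈ s, f k ∈ 𝔏.K (p.sm W s.card) := by
  classical
  induction s using Finset.induction_on with
  | empty => rw [Finset.sum_empty, Finset.card_empty, ← C_0]; exact 𝔏.const_mem 0
  | insert k s hk ih =>
    rw [Finset.sum_insert hk, Finset.card_insert_of_notMem hk]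
    refine 𝔏.mono (Nat.le_add_left _ _) (𝔏.add_mem (W := W + p.sm W s.card) ?_ ?_)
    · exact 𝔏.mono (Nat.le_add_right _ _) (h k (Finset.mem_insert_self _ _))
    · exact 𝔏.mono (Nat.le_add_left _ _) (ih fun k' hk' => h k' (Finset.mem_insert_of_mem hk'))

theorem LFamO.det_mem (𝔏 : LFamO V p Y₀) {W ρ Q : ℕ} (hρ : ρ ≤ Q)
    {M : Matrix (Fin ρ) (Fin ρ) (MvPolynomial (Fin n) F)} (h : ∀ i j, M i j ∈ 𝔏.K W) :
    M.det ∈ 𝔏.K (p.dt W Q) := by
  classical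
  rw [Matrix.det_apply']
  have h1 := 𝔏.sum_mem (W := p.ml (p.cc + p.pr W Q))
    (Finset.univ : Finset (Equiv.Perm (Fin ρ)))
    (fun τ => (((Equiv.Perm.sign τ : ℤˣ) : ℤ) : MvPolynomial (Fin n) F) * ∏ x, M (τ x) x)
    (fun τ _ => by
      refine 𝔏.mul_mem ?_ ?_
      · have : ((((Equiv.Perm.sign τ : ℤˣ) : ℤ)) : MvPolynomial (Fin n) F) =
            C ((((Equiv.Perm.sign τ : ℤˣ) : ℤ)) : F) := by rw [map_intCast]
        rw [this]
        exact 𝔏.mono (Nat.le_add_right _ _) (𝔏.const_mem _)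
      · refine 𝔏.mono ?_ (𝔏.prod_mem (W := W) Finset.univ (fun x => M (τ x) x)
          fun x _ => h _ _)
        rw [Finset.card_univ, Fintype.card_fin]
        exact (p.pr_mono W hρ).trans (Nat.le_add_left _ _))
  refine 𝔏.mono ?_ h1
  rw [Finset.card_univ, Fintype.card_perm, Fintype.card_fin]
  exact p.sm_mono _ (Nat.factorial_le hρ)

theorem LFamO.minor (𝔏 : LFamO V p Y₀) {W r e : ℕ} {ι : Type} {H : ι → MvPolynomial (Fin n) F}
    (hH : ∀ i, H i ∈ 𝔏.K W) (he : p.em r W ≤ e) {ρ : ℕ} (κ : Fin ρ → Fin n) (g : Fin ρ → ι)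
    (hρ : ρ ≤ r) (hdet : (Matrix.of fun q l => pderiv (κ q) (H (g l))).det ≠ 0)
    {Y : Finset (Fin n)} (hY : Y₀ ⊆ Y) :
    (Matrix.of fun q l => pderiv (κ q) (H (g l))).det ∉ V.O e Y := by
  intro hmem
  apply hdet
  refine 𝔏.seeds _ _ ?_ Y hY (V.O_mono he _ hmem)
  exact 𝔏.det_mem hρ fun q l => 𝔏.der_mem _ (hH _)

theorem ctrl_univ_diff {ι : Type} [Fintype ι] {H : ι → MvPolynomial (Fin n) F}
    {Y : Finset (Fin n)} {f : MvPolynomial (Fin n) F}
    (hf : f ∈ Algebra.adjoin F (Set.range H ∪ X '' (Y : Set (Fin n)))) :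
    Ctrl (((Finset.univ \ Y : Finset (Fin n))) : Set (Fin n)) H f := by
  refine (ctrl_of_adjoin hf).mono ?_
  intro k hk
  rw [Finset.mem_coe, Finset.mem_sdiff] at hk
  exact fun hc => hk.2 (Finset.mem_coe.1 hc)

variable [CharZero F]

/-- freeing directions for polynomials controlled by members of the class -/
theorem LFamO.free (𝔏 : LFamO V p Y₀) {W r e b : ℕ} {ι : Type} [Fintype ι]
    {H : ι → MvPolynomial (Fin n) F} (hH : ∀ i, H i ∈ 𝔏.K W) (hr : Fintype.card ι ≤ r)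
    (he : p.em r W ≤ e) {B Y : Finset (Fin n)} (hY : Y₀ ⊆ Y) {f : MvPolynomial (Fin n) F}
    (hf : Ctrl (B : Set (Fin n)) H f) (hb : ∀ i, Bdl i b f) {j : ℕ}
    (h : f ∈ V.O (j + (e + r * b)) Y) : f ∈ V.O j (Y ∪ B) :=
  V.free_blockO (Y := Y) (b := b) hf (fun i _ => hb i) hr
    (fun _ κ g hρ hdet _ hY' => 𝔏.minor hH he κ g hρ hdet (hY.trans hY')) h

/-- polynomials generated by free variables and members of the class -/
theorem LFamO.zero_free (𝔏 : LFamO V p Y₀) {W r b : ℕ} {ι : Type} [Fintype ι]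
    {H : ι → MvPolynomial (Fin n) F} (hH : ∀ i, H i ∈ 𝔏.K W) (hr : Fintype.card ι ≤ r)
    {Y : Finset (Fin n)} (hY : Y₀ ⊆ Y) {f : MvPolynomial (Fin n) F} (hb : ∀ i, Bdl i b f)
    (hf : f ∈ Algebra.adjoin F (Set.range H ∪ X '' (Y : Set (Fin n))))
    (h : f ∈ V.O (p.em r W + r * b) Y) : f = 0 := by
  classical
  have h1 : f ∈ V.O 0 (Y ∪ (Finset.univ \ Y)) :=
    𝔏.free hH hr le_rfl hY (ctrl_univ_diff hf) hb (by rw [Nat.zero_add]; exact h)
  refine V.O_supp ?_ h1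
  rw [Finset.union_sdiff_of_subset (Finset.subset_univ _), Finset.coe_univ, supported_univ]
  trivial

end basic

section tree

variable {F : Type v} [Field F] {n : ℕ} {V : DChain F n} {p : CstO} {Y₀ : Finset (Fin n)}

theorem jet_bdl {ρ : ℕ} (κ : Fin ρ → Fin n) {g : MvPolynomial (Fin n) F} {i : Fin n} {b : ℕ}
    (h : Bdl i b g) (l : ℕ) (x : JI ρ l) : Bdl i b (jet κ g l x) :=
  jet_mem (κ := κ) (fun _ => {f | Bdl i b f}) h (fun _ => le_rfl) (fun _ k _ hx => Bdl.pd hx k) l x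

/-- polynomials of bounded rank in the jets of `g` and members of the class -/
def TO (𝔏 : LFamO V p Y₀) (g : MvPolynomial (Fin n) F) (W : ℕ) : Set (MvPolynomial (Fin n) F) :=
  {f | ∃ (ρ l : ℕ) (κ : Fin ρ → Fin n) (ι : Type) (_ : Fintype ι)
    (P : ι → MvPolynomial (Fin n) F), ρ ≤ W ∧ l ≤ W ∧ Fintype.card ι ≤ W ∧ (∀ i, P i ∈ 𝔏.K W) ∧
    f ∈ Algebra.adjoin F (Set.range (jet κ g l) ∪ Set.range P) ∧ ∀ i, Bdl i W f}

variable {𝔏 : LFamO V p Y₀} {g : MvPolynomial (Fin n) F} {W W' : ℕ}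

theorem TO.mono (h : W ≤ W') : TO 𝔏 g W ⊆ TO 𝔏 g W' := by
  rintro f ⟨ρ, l, κ, ι, i1, P, h1, h2, h3, h4, h5, h6⟩
  exact ⟨ρ, l, κ, ι, i1, P, h1.trans h, h2.trans h, h3.trans h, fun i => 𝔏.mono h (h4 i), h5,
    fun i => (h6 i).mono h⟩

theorem TO.val (hb : ∀ i, Bdl i W g) : g ∈ TO 𝔏 g W :=
  ⟨0, 0, Fin.elim0, Empty, inferInstance, Empty.elim, Nat.zero_le _, Nat.zero_le _,
    by simp, fun i => i.elim, Algebra.subset_adjoin (Or.inl ⟨(), rfl⟩), hb⟩

theorem TO.jet {ρ l : ℕ} (κ : Fin ρ → Fin n) (hρ : ρ ≤ W) (hl : l ≤ W) (hb : ∀ i, Bdl i W g)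
    (i : JI ρ l) : H530R2.jet κ g l i ∈ TO 𝔏 g W :=
  ⟨ρ, l, κ, Empty, inferInstance, Empty.elim, hρ, hl,
    by simp, fun i => i.elim, Algebra.subset_adjoin (Or.inl ⟨i, rfl⟩),
    fun k => jet_bdl κ (hb k) l i⟩

theorem TO.ofK (hW : 1 ≤ W) {f : MvPolynomial (Fin n) F} (hf : f ∈ 𝔏.K W)
    (hb : ∀ i, Bdl i W f) : f ∈ TO 𝔏 g W :=
  ⟨0, 0, Fin.elim0, Unit, inferInstance, fun _ => f, Nat.zero_le _, Nat.zero_le _,
    by simpa using hW, fun _ => hf, Algebra.subset_adjoin (Or.inr ⟨(), rfl⟩), hb⟩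

theorem TO.ofK' {W₁ : ℕ} (hW : 1 + W₁ + p.bd W₁ ≤ W) {f : MvPolynomial (Fin n) F}
    (hf : f ∈ 𝔏.K W₁) : f ∈ TO 𝔏 g W :=
  TO.ofK (by omega) (𝔏.mono (by omega) hf) fun i => (𝔏.bd_mem hf i).mono (by omega)

theorem TO.comb {k W'' : ℕ} {τ : Type} [Fintype τ] {h : τ → MvPolynomial (Fin n) F}
    {f : MvPolynomial (Fin n) F} (hτ : Fintype.card τ ≤ k) (hh : ∀ i, h i ∈ TO 𝔏 g W)
    (hf : f ∈ Algebra.adjoin F (Set.range h)) (hb : ∀ i, Bdl i W'' f) :
    f ∈ TO 𝔏 g (k * W + W + W'') := by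
  classical
  choose ρ l κ ι i1 P h1 h2 h3 h4 h5 _ using hh
  have hcard : Fintype.card ((i : τ) × Fin (ρ i)) ≤ k * W := by
    rw [Fintype.card_sigma]
    calc ∑ i, Fintype.card (Fin (ρ i)) ≤ ∑ _i : τ, W :=
          Finset.sum_le_sum fun i _ => by rw [Fintype.card_fin]; exact h1 i
      _ = Fintype.card τ * W := by rw [Finset.sum_const, Finset.card_univ, smul_eq_mul]
      _ ≤ k * W := Nat.mul_le_mul_right _ hτ
  have hcard' : Fintype.card ((i : τ) × ι i) ≤ k * W := by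
    rw [Fintype.card_sigma]
    calc ∑ i, Fintype.card (ι i) ≤ ∑ _i : τ, W := Finset.sum_le_sum fun i _ => h3 i
      _ = Fintype.card τ * W := by rw [Finset.sum_const, Finset.card_univ, smul_eq_mul]
      _ ≤ k * W := Nat.mul_le_mul_right _ hτ
  refine ⟨Fintype.card ((i : τ) × Fin (ρ i)), W,
    fun q => κ ((Fintype.equivFin _).symm q).1 ((Fintype.equivFin _).symm q).2,
    (i : τ) × ι i, inferInstance, fun x => P x.1 x.2, by omega, by omega, by omega,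
    fun x => 𝔏.mono (by omega) (h4 x.1 x.2), ?_, fun i => (hb i).mono (Nat.le_add_left _ _)⟩
  refine (Algebra.adjoin_le ?_) hf
  rintro _ ⟨i, rfl⟩
  refine Algebra.adjoin_mono ?_ (h5 i)
  apply Set.union_subset_union
  · refine (jet_range_dir ?_ g (l i)).trans (jet_range_mono _ g (h2 i))
    rintro _ ⟨q, rfl⟩
    refine ⟨Fintype.equivFin _ (⟨i, q⟩ : (i : τ) × Fin (ρ i)), ?_⟩
    beta_reduce
    rw [Equiv.symm_apply_apply]
  · rintro _ ⟨x, rfl⟩
    exact ⟨⟨i, x⟩, rfl⟩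

theorem TO.bd {f : MvPolynomial (Fin n) F} (hf : f ∈ TO 𝔏 g W) (i : Fin n) : Bdl i W f := by
  obtain ⟨ρ, l, κ, ι, i1, P, h1, h2, h3, h4, h5, h6⟩ := hf
  exact h6 i

theorem TO.add {f f' : MvPolynomial (Fin n) F} (hf : f ∈ TO 𝔏 g W) (hf' : f' ∈ TO 𝔏 g W) :
    f + f' ∈ TO 𝔏 g (2 * W + W + (W + W)) := by
  refine TO.comb (τ := Fin 2) (h := ![f, f']) (by rw [Fintype.card_fin]) ?_ ?_
    fun i => (TO.bd hf i).addO (TO.bd hf' i)
  · intro i
    fin_cases i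
    exacts [hf, hf']
  · exact Subalgebra.add_mem _ (Algebra.subset_adjoin ⟨0, rfl⟩) (Algebra.subset_adjoin ⟨1, rfl⟩)

theorem TO.mul {f f' : MvPolynomial (Fin n) F} (hf : f ∈ TO 𝔏 g W) (hf' : f' ∈ TO 𝔏 g W) :
    f * f' ∈ TO 𝔏 g (2 * W + W + W * W) := by
  refine TO.comb (τ := Fin 2) (h := ![f, f']) (by rw [Fintype.card_fin]) ?_ ?_
    fun i => (TO.bd hf i).mul (TO.bd hf' i)
  · intro i
    fin_cases i
    exacts [hf, hf']
  · exact Subalgebra.mul_mem _ (Algebra.subset_adjoin ⟨0, rfl⟩) (Algebra.subset_adjoin ⟨1, rfl⟩)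

theorem TO.const (c : F) : (C c : MvPolynomial (Fin n) F) ∈ TO 𝔏 g 1 :=
  ⟨0, 0, Fin.elim0, Empty, inferInstance, Empty.elim, Nat.zero_le _, Nat.zero_le _,
    by simp, fun i => i.elim, Subalgebra.algebraMap_mem _ c, fun _ => Bdl.const c⟩

theorem TO.der (k : Fin n) {f : MvPolynomial (Fin n) F} (hf : f ∈ TO 𝔏 g W) :
    pderiv k f ∈ TO 𝔏 g (2 * W + 1 + p.der W) := by
  classical
  obtain ⟨ρ, l, κ, ι, i1, P, h1, h2, h3, h4, h5, h6⟩ := hf
  refine ⟨ρ + 1, l + 1, Fin.cons k κ, ι ⊕ ι, inferInstance,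
    Sum.elim P (fun i => pderiv k (P i)), by omega, by omega,
    by rw [Fintype.card_sum]; omega, ?_, ?_, fun i => ((h6 i).pd k).mono (by omega)⟩
  · rintro (i | i)
    · exact 𝔏.mono (by omega) (h4 i)
    · exact 𝔏.mono (by omega) (𝔏.der_mem k (h4 i))
  · have hsub : Set.range (H530R2.jet κ g l) ⊆
        Set.range (H530R2.jet (Fin.cons k κ : Fin (ρ + 1) → Fin n) g l) := by
      apply jet_range_dir
      rintro _ ⟨q, rfl⟩
      exact ⟨q.succ, by rw [Fin.cons_succ]⟩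
    refine pderiv_mem_of_adjoin k ?_ ?_ h5
    · rintro x (hx | ⟨i, rfl⟩)
      · exact Algebra.subset_adjoin (Or.inl (jet_range_succ _ _ _ (hsub hx)))
      · exact Algebra.subset_adjoin (Or.inr ⟨Sum.inl i, rfl⟩)
    · rintro x (hx | ⟨i, rfl⟩)
      · have h6 := jet_pderiv (Fin.cons k κ : Fin (ρ + 1) → Fin n) g l 0 (hsub hx)
        rw [Fin.cons_zero] at h6
        exact Algebra.subset_adjoin (Or.inl h6)
      · exact Algebra.subset_adjoin (Or.inr ⟨Sum.inr i, rfl⟩)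

/-- the constants of the family generated by a polynomial -/
def CstO.next (p : CstO) (sd : ℕ → ℕ) : CstO where
  cc := 1
  ad W := 2 * W + W + (W + W)
  ml W := 2 * W + W + W * W
  der W := 2 * W + 1 + p.der W
  bd W := W
  sd := sd

/-- the family generated by a polynomial -/
def LFamO.tree (𝔏 : LFamO V p Y₀) (g : MvPolynomial (Fin n) F) (sd : ℕ → ℕ)
    (hsd : ∀ W, ∀ f ∈ TO 𝔏 g W, ∀ Y, Y₀ ⊆ Y → f ∈ V.O (sd W) Y → f = 0) :
    LFamO V (p.next sd) Y₀ where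
  K := TO 𝔏 g
  mono := TO.mono
  const_mem := TO.const
  add_mem := TO.add
  mul_mem := TO.mul
  der_mem := TO.der
  bd_mem := TO.bd
  seeds := hsd

end tree

end Pool.Agent.TH668.Orf
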