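import Mathlib
import Pool.Agent.TH668.Orf.F1

/-!
The rank of the value of a formula with affine gates in one variable; regular formulas; the
induction statement. (The arguments follow `Pool.Agent.H530R2.Tre2`.)
-/

set_option autoImplicit false

namespace Pool.Agent.TH668.Orf

open MvPolynomial Module Pool.Agent.H530R2 Pool.Agent.W943

universe v

section rank

variable {F : Type v} [Field F] {n : ℕ}

/-- the bound for the ranks of the values -/
def rb (R K : ℕ) : ℕ := (R + 1) ^ K

theorem rank_aux {R : ℕ} (i : Fin n) {L : Set (MvPolynomial (Fin n) F)}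
    (hL : ∀ g ∈ L, Bdl i R g) (T : Tr F n) : T.ML → T.Lv L →
    ∃ (β : Type) (_ : Fintype β) (b : β → Polynomial F) (o : β), b o = 1 ∧ BdF i b T.val ∧
      Fintype.card β ≤ (R + 1) ^ T.occ i := by
  classical
  induction T with
  | leaf g =>
    intro _ hg
    by_cases hi : i ∈ g.vars
    · obtain ⟨s, b, hs, c, hc, hb⟩ := (hL g hg).toF
      refine ⟨Option (Fin s), inferInstance, fun x => x.elim 1 b, none, rfl,
        ⟨fun x => x.elim 0 c, ?_, ?_⟩, ?_⟩
      · rintro (_ | x)
        · exact Subalgebra.zero_mem _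
        · exact hc x
      · show g = _
        rw [Fintype.sum_option]
        simp only [Option.elim_none, Option.elim_some, mul_zero, zero_add]
        exact hb
      · have h1 : Tr.occ (.leaf g) i = 1 := if_pos hi
        rw [h1, pow_one, Fintype.card_option, Fintype.card_fin]
        omega
    · refine ⟨Unit, inferInstance, fun _ => 1, (), rfl, ?_, ?_⟩
      · refine BdF.of_free (α := ()) ?_ rfl
        show g ∈ _
        rw [mem_supported]
        intro x hx
        show x ≠ i
        rintro rfl
        exact hi (Finset.mem_coe.1 hx)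
      · simp only [Fintype.card_unit]
        exact Nat.one_le_pow _ _ (Nat.succ_pos R)
  | gate γ a b iha ihb =>
    rintro ⟨hma, hmb, c0, c1, c2, c3, rfl⟩ ⟨hLa, hLb⟩
    obtain ⟨β, i1, f, o, ho, hf, hc⟩ := iha hma hLa
    obtain ⟨β', i2, f', o', ho', hf', hc'⟩ := ihb hmb hLb
    refine ⟨β × β', inferInstance, fun x => f x.1 * f' x.2, (o, o'), ?_, ?_, ?_⟩
    · show f o * f' o' = 1
      rw [ho, ho', mul_one]
    · have h0 : BdF i (fun _ : Unit => (1 : Polynomial F)) (1 : MvPolynomial (Fin n) F) :=
        BdF.of_free (α := ()) (Subalgebra.one_mem _) rfl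
      have hone : BdF i f (1 : MvPolynomial (Fin n) F) := BdF.of_free (Subalgebra.one_mem _) ho
      have hone' : BdF i f' (1 : MvPolynomial (Fin n) F) := BdF.of_free (Subalgebra.one_mem _) ho'
      have h1 := hone.mulMul hone'
      have h2 := hf.mulMul hone'
      have h3 := hone.mulMul hf'
      have h4 := hf.mulMul hf'
      have hC : ∀ c : F, (C c : MvPolynomial (Fin n) F) ∈ supported F {k : Fin n | k ≠ i} :=
        fun c => Subalgebra.algebraMap_mem _ c
      have h5 := (((h1.free_mul (hC c0)).add (h2.free_mul (hC c1))).add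
        (h3.free_mul (hC c2))).add (h4.free_mul (hC c3))
      have h6 : (Tr.gate (C c0 + C c1 * X 0 + C c2 * X 1 + C c3 * (X 0 * X 1)) a b).val =
          C c0 * (1 * 1) + C c1 * (a.val * 1) + C c2 * (1 * b.val) + C c3 * (a.val * b.val) := by
        show aeval ![a.val, b.val] _ = _
        simp only [map_add, map_mul, aeval_C, aeval_X, algebraMap_eq, Matrix.cons_val_zero,
          Matrix.cons_val_one, mul_one, one_mul]
      rw [h6]
      exact h5
    · rw [Fintype.card_prod]
      show _ ≤ (R + 1) ^ (a.occ i + b.occ i)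
      rw [pow_add]
      exact Nat.mul_le_mul hc hc'

/-- the rank of the value of a formula with affine gates -/
theorem rank_val {R K : ℕ} (i : Fin n) {L : Set (MvPolynomial (Fin n) F)}
    (hL : ∀ g ∈ L, Bdl i R g) {T : Tr F n} (h1 : T.ML) (h2 : T.Lv L) (h3 : T.occ i ≤ K) :
    Bdl i (rb R K) T.val := by
  obtain ⟨β, i1, b, o, _, hb, hc⟩ := rank_aux i hL T h1 h2
  exact hb.bdl.mono (hc.trans (Nat.pow_le_pow_right (Nat.succ_pos R) h3))

end rank

section reg

variable {F : Type v} [Field F] {n : ℕ} {V : DChain F n} {p : CstO} {Y₀ : Finset (Fin n)}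

/-- the partial derivatives of the gates do not belong to the ideals -/
def Rgo (V : DChain F n) (e : ℕ) (Y₀ : Finset (Fin n)) : Tr F n → Prop
  | .leaf _ => True
  | .gate γ a b => Rgo V e Y₀ a ∧ Rgo V e Y₀ b ∧ ∀ i : Fin 2,
      aeval ![a.val, b.val] (pderiv i γ) ≠ 0 → ∀ Y, Y₀ ⊆ Y →
        aeval ![a.val, b.val] (pderiv i γ) ∉ V.O e Y

theorem Rgo.mono {e e' : ℕ} {Y₁ : Finset (Fin n)} (he : e ≤ e') (hY : Y₀ ⊆ Y₁) {T : Tr F n}
    (h : Rgo V e Y₀ T) : Rgo V e' Y₁ T := by
  induction T with
  | leaf g => trivial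
  | gate γ a b iha ihb =>
    exact ⟨iha h.1, ihb h.2.1, fun i h0 Y hY' hc => h.2.2 i h0 Y (hY.trans hY')
      (V.O_mono he _ hc)⟩

/-- formulas with affine gates over a class, which read every variable at most `K` times -/
def Gd (L : Set (MvPolynomial (Fin n) F)) (K : ℕ) (T : Tr F n) : Prop :=
  T.ML ∧ T.Lv L ∧ ∀ i, T.occ i ≤ K

theorem Gd.left {L : Set (MvPolynomial (Fin n) F)} {K : ℕ} {γ : MvPolynomial (Fin 2) F}
    {a b : Tr F n} (h : Gd L K (.gate γ a b)) : Gd L K a :=
  ⟨h.1.1, h.2.1.1, fun i => (Nat.le_add_right _ _).trans (h.2.2 i)⟩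

theorem Gd.right {L : Set (MvPolynomial (Fin n) F)} {K : ℕ} {γ : MvPolynomial (Fin 2) F}
    {a b : Tr F n} (h : Gd L K (.gate γ a b)) : Gd L K b :=
  ⟨h.1.2.1, h.2.1.2, fun i => (Nat.le_add_left _ _).trans (h.2.2 i)⟩

theorem Gd.mono {L L' : Set (MvPolynomial (Fin n) F)} (hL : L ⊆ L') {K : ℕ} {T : Tr F n}
    (h : Gd L K T) : Gd L' K T := ⟨h.1, h.2.1.mono hL, h.2.2⟩

theorem Gd.bdl {𝔏 : LFamO V p Y₀} {W K : ℕ} {T : Tr F n} (h : Gd (𝔏.K W) K T) (i : Fin n) :
    Bdl i (rb (p.bd W) K) T.val :=
  rank_val i (fun _ hg => 𝔏.bd_mem hg i) h.1 h.2.1 (h.2.2 i)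

/-- the theorem for formulas reading the variables outside the free set at most `k` times -/
def SeedsO (F : Type v) [Field F] (K k : ℕ) : Prop :=
  ∀ (p : CstO) (eR W0 W : ℕ), ∃ e : ℕ, ∀ (n : ℕ) (V : DChain F n) (Y₀ : Finset (Fin n))
    (𝔏 : LFamO V p Y₀) (T : Tr F n), Gd (𝔏.K W0) K T → (∀ i, i ∉ Y₀ → T.occ i ≤ k) →
    Rgo V eR Y₀ T → ∀ f ∈ TO 𝔏 T.val W, ∀ Y, Y₀ ⊆ Y → f ∈ V.O e Y → f = 0

theorem SeedsO.zero [CharZero F] (K : ℕ) : SeedsO F K 0 := by
  intro p eR W0 W
  refine ⟨p.em W W + W * W, ?_⟩
  intro n V Y₀ 𝔏 T _ hocc _ f hf Y hY hmem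
  obtain ⟨ρ, l, κ, ι, i1, P, h1, h2, h3, h4, h5, h6⟩ := hf
  refine 𝔏.zero_free h4 h3 hY h6 ?_ hmem
  refine (Algebra.adjoin_le ?_) h5
  rintro x (⟨i, rfl⟩ | ⟨i, rfl⟩)
  · have h6 : T.val ∈ supported F (Y : Set (Fin n)) := by
      refine supported_mono ?_ T.val_supp
      intro i hi
      by_contra hc
      have := hocc i (fun hc' => hc (Finset.mem_coe.2 (hY hc')))
      exact hi (by omega)
    have h7 : H530R2.jet κ T.val l i ∈ supported F (Y : Set (Fin n)) :=
      jet_mem (fun _ => (supported F (Y : Set (Fin n)) : Set (MvPolynomial (Fin n) F))) h6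
        (fun _ => le_rfl) (fun _ k x hx => pderiv_mem_supported k hx) l i
    exact Algebra.adjoin_mono Set.subset_union_right h7
  · exact Algebra.subset_adjoin (Or.inl ⟨i, rfl⟩)

end reg

section claim

variable {F : Type v} [Field F] [CharZero F] {n : ℕ}

/-- freeing the variables of multiplicity `k + 1`, by induction on the rank -/
theorem tree_claimO (V : DChain F n) {Y₁ : Finset (Fin n)} {k K N E eR : ℕ} {ρ l : ℕ}
    {κ : Fin ρ → Fin n} {ι : Type} [Fintype ι] {P : ι → MvPolynomial (Fin n) F}
    {L : Set (MvPolynomial (Fin n) F)} {f : MvPolynomial (Fin n) F}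
    (hN : Fintype.card (JI ρ l ⊕ ι) ≤ N) (heR : eR ≤ E)
    (hleaf : ∀ g ∈ L, ∀ B Y : Finset (Fin n), Y₁ ⊆ Y →
      Ctrl (B : Set (Fin n)) (Sum.elim (jet κ g l) P) f → ∀ j, f ∈ V.O (j + E) Y →
      f ∈ V.O j (Y ∪ B))
    (hmem : ∀ B Y : Finset (Fin n), Y₁ ⊆ Y →
      Ctrl (B : Set (Fin n)) P f → ∀ j, f ∈ V.O (j + E) Y → f ∈ V.O j (Y ∪ B))
    (hone : ∀ a : Tr F n, Rgo V eR Y₁ a → Gd L K a → ∀ Y : Finset (Fin n), Y₁ ⊆ Y →
      (∀ i, i ∉ Y → a.occ i ≤ k) → ∀ (ρ' : ℕ) (κ' : Fin ρ' → Fin n)
      (g : Fin ρ' → JI ρ l ⊕ ι), ρ' ≤ N →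
      (Matrix.of fun q q' => pderiv (κ' q) ((Sum.elim (jet κ a.val l) P) (g q'))).det ≠ 0 →
      (Matrix.of fun q q' => pderiv (κ' q) ((Sum.elim (jet κ a.val l) P) (g q'))).det ∉ V.O E Y)
    (htwo : ∀ a b : Tr F n, Rgo V eR Y₁ a → Rgo V eR Y₁ b → Gd L K a → Gd L K b →
      ∀ B Y : Finset (Fin n), Y₁ ⊆ Y → (∀ i, i ∉ Y → a.occ i ≤ k) →
      (∀ i, i ∉ Y → b.occ i ≤ k) →
      Ctrl (B : Set (Fin n)) (Sum.elim (Sum.elim (jet κ a.val l) (jet κ b.val l)) P) f →
      ∀ j, f ∈ V.O (j + E) Y → f ∈ V.O j (Y ∪ B)) :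
    ∀ (r : ℕ) (T : Tr F n), Rgo V eR Y₁ T → Gd L K T → (∀ i, i ∉ Y₁ → T.occ i ≤ k + 1) →
      er (ZT T Y₁ k) (Sum.elim (jet κ T.val l) P) ≤ r →
      Ctrl (ZT T Y₁ k : Set (Fin n)) (Sum.elim (jet κ T.val l) P) f →
      ∀ (j : ℕ) (Y : Finset (Fin n)), Y₁ ⊆ Y → f ∈ V.O (j + E + tc E (r + 1)) Y →
      f ∈ V.O (j + E) (Y ∪ ZT T Y₁ k) := by
  classical
  intro r
  induction r using Nat.strong_induction_on with
  | _ r IH =>
    intro T
    induction T with
    | leaf g =>
      intro _ hL _ _ hctl j Y hY hf
      refine hleaf g hL.2.1 _ Y hY hctl (j + E) (V.O_mono ?_ _ hf)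
      have := tc_ge E (r + 1)
      omega
    | gate γ a b iha ihb =>
      intro hR hL hocc her hctl j Y hY hf
      obtain ⟨hRa, hRb, hα⟩ := hR
      have hLa := hL.left
      have hLb := hL.right
      set T : Tr F n := .gate γ a b with hT
      have hoccT : ∀ i, T.occ i = a.occ i + b.occ i := fun i => rfl
      have hZa : ZT a Y₁ k ⊆ ZT T Y₁ k := by
        intro i hi
        rw [mem_ZT] at hi ⊢
        have := hoccT i
        exact ⟨hi.1, by omega⟩
      have hZb : ZT b Y₁ k ⊆ ZT T Y₁ k := by
        intro i hi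
        rw [mem_ZT] at hi ⊢
        have := hoccT i
        exact ⟨hi.1, by omega⟩
      have hval : T.val = aeval ![a.val, b.val] γ := rfl
      -- the chain rule on the two sets
      have hda : ∀ i ∈ ZT a Y₁ k, pderiv i T.val =
          aeval ![a.val, b.val] (pderiv 0 γ) * pderiv i a.val := by
        intro i hi
        rw [mem_ZT] at hi
        have h1 := hocc i hi.1
        have h2 := hoccT i
        rw [hval, pderiv_gate, Tr.pderiv_val (T := b) (k := i) (by omega), mul_zero, add_zero]
      have hdb : ∀ i ∈ ZT b Y₁ k, pderiv i T.val =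
          aeval ![a.val, b.val] (pderiv 1 γ) * pderiv i b.val := by
        intro i hi
        rw [mem_ZT] at hi
        have h1 := hocc i hi.1
        have h2 := hoccT i
        rw [hval, pderiv_gate, Tr.pderiv_val (T := a) (k := i) (by omega), mul_zero, zero_add]
      have hge := tc_ge E r
      -- the treatment of a child
      have hchild : ∀ (s : Fin 2) (c : Tr F n), Rgo V eR Y₁ c → Gd L K c →
          (∀ i, i ∉ Y₁ → c.occ i ≤ k + 1) → ZT c Y₁ k ⊆ ZT T Y₁ k →
          (∀ i ∈ ZT c Y₁ k, pderiv i T.val =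
            aeval ![a.val, b.val] (pderiv s γ) * pderiv i c.val) →
          (er (ZT c Y₁ k) (Sum.elim (jet κ c.val l) P) ≤ r →
            Ctrl (ZT c Y₁ k : Set (Fin n)) (Sum.elim (jet κ c.val l) P) f →
            ∀ (j : ℕ) (Y : Finset (Fin n)), Y₁ ⊆ Y → f ∈ V.O (j + E + tc E (r + 1)) Y →
            f ∈ V.O (j + E) (Y ∪ ZT c Y₁ k)) →
          f ∈ V.O (j + E) (Y ∪ ZT T Y₁ k) ∨
            ∀ (j : ℕ) (Y : Finset (Fin n)), Y₁ ⊆ Y →
              f ∈ V.O (j + E + tc E r) Y → f ∈ V.O (j + E) (Y ∪ ZT c Y₁ k) := by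
        intro s c hRc hLc hoccc hZc hdc hrec
        by_cases hα0 : aeval ![a.val, b.val] (pderiv s γ) = 0
        · -- no dependence
          right
          intro j Y hY hf
          have hctl' : Ctrl (ZT c Y₁ k : Set (Fin n)) P f := by
            refine Ctrl.trans (J' := Sum.elim (jet κ T.val l) P) ?_
              (hctl.mono (by exact_mod_cast hZc))
            rintro (i | i)
            · refine ⟨0, fun x hx => ?_⟩
              rw [Sum.elim_inl, jet_zero κ (by rw [hdc x (Finset.mem_coe.1 hx), hα0, zero_mul])]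
              simp
            · refine ⟨Pi.single i 1, fun x _ => ?_⟩
              rw [Finset.sum_eq_single i]
              · simp
              · intro b _ hb
                rw [Pi.single_eq_of_ne hb, zero_mul]
              · intro h; exact absurd (Finset.mem_univ _) h
          refine hmem _ Y hY hctl' (j + E) (V.O_mono ?_ _ hf)
          omega
        · have het : Et (ZT c Y₁ k) (aeval ![a.val, b.val] (pderiv s γ))
              (Sum.elim (jet κ T.val l) P) (Sum.elim (jet κ c.val l) P) :=
            (Et.jet κ hdc l).sum P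
          have her' := het.er_eq hα0
          have hctl' : Ctrl (ZT c Y₁ k : Set (Fin n)) (Sum.elim (jet κ c.val l) P) f :=
            Ctrl.trans (fun i => het.ctrl i) (hctl.mono (by exact_mod_cast hZc))
          have hmono := er_mono hZc (Sum.elim (jet κ T.val l) P)
          by_cases hlt : er (ZT c Y₁ k) (Sum.elim (jet κ c.val l) P) <
              er (ZT T Y₁ k) (Sum.elim (jet κ T.val l) P)
          · right
            intro j Y hY hf
            obtain ⟨r', rfl⟩ : ∃ r', r = r' + 1 := ⟨r - 1, by omega⟩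
            exact IH r' (by omega) c hRc hLc hoccc (by omega) hctl' j Y hY hf
          · left
            have h1 := hrec (by omega) hctl' j Y hY hf
            -- all further steps are lossless
            obtain ⟨ρ', m, κ', g, hρ', hκ', hμ, hrel⟩ := het.cramer
            have hspeq : sp (ZT c Y₁ k) (Sum.elim (jet κ T.val l) P) =
                sp (ZT T Y₁ k) (Sum.elim (jet κ T.val l) P) := by
              apply Submodule.eq_of_le_of_finrank_le
              · unfold sp
                apply Submodule.span_mono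
                apply Set.image_mono
                exact_mod_cast hZc
              · have h2 : er (ZT T Y₁ k) (Sum.elim (jet κ T.val l) P) ≤
                    er (ZT c Y₁ k) (Sum.elim (jet κ T.val l) P) := by omega
                exact h2
            set μ := (Matrix.of fun q q' =>
              pderiv (κ' q) ((Sum.elim (jet κ c.val l) P) (g q'))).det with hμdef
            have hnon : ∀ Y', Y ∪ ZT c Y₁ k ⊆ Y' →
                μ * (aeval ![a.val, b.val] (pderiv s γ)) ^ m ∉ V.O (j + E) Y' := by
              intro Y' hY' hmem'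
              have hpr : (V.O (j + E) Y').IsPrime := V.H_prime _ Y'
              rcases hpr.mem_or_mem hmem' with h3 | h3
              · refine hone c hRc hLc Y' (hY.trans (Finset.subset_union_left.trans hY')) ?_
                  ρ' κ' g (hρ'.trans hN) hμ (V.O_mono (Nat.le_add_left _ _) _ h3)
                intro i hi
                by_contra hc
                apply hi
                apply hY'
                apply Finset.mem_union_right
                rw [mem_ZT]
                exact ⟨fun hc' => hi (hY' (Finset.mem_union_left _ (hY hc'))), by omega⟩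
              · have h4 := hpr.mem_of_pow_mem _ h3
                exact hα s hα0 Y' (hY.trans (Finset.subset_union_left.trans hY'))
                  (V.O_mono (by omega) _ h4)
            have hall : ∀ S : Finset (Fin n), S ⊆ ZT T Y₁ k →
                f ∈ V.O (j + E) (S ∪ (Y ∪ ZT c Y₁ k)) := by
              intro S
              induction S using Finset.induction_on with
              | empty => intro _; rw [Finset.empty_union]; exact h1
              | insert i S _ ihS =>
                intro hS
                have ihS' := ihS (fun x hx => hS (Finset.mem_insert_of_mem hx))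
                have hiT : i ∈ ZT T Y₁ k := hS (Finset.mem_insert_self _ _)
                rw [Finset.insert_union]
                obtain ⟨cf, hcf⟩ := hrel i (by
                  rw [hspeq]
                  exact Submodule.subset_span ⟨i, Finset.mem_coe.2 hiT, rfl⟩)
                exact V.O_lossless (fun q => Finset.mem_union_right _
                    (Finset.mem_union_right _ (hκ' q)))
                  (ctrl_pde hctl (Finset.mem_coe.2 hiT)
                    (fun q => Finset.mem_coe.2 (hZc (hκ' q))) hcf) ihS'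
                  (hnon _ Finset.subset_union_right)
            have h5 := hall (ZT T Y₁ k) le_rfl
            have h6 : ZT T Y₁ k ∪ (Y ∪ ZT c Y₁ k) = Y ∪ ZT T Y₁ k := by
              rw [Finset.union_comm, Finset.union_assoc]
              congr 1
              exact Finset.union_eq_right.2 hZc
            rwa [h6] at h5
      have hocca : ∀ i, i ∉ Y₁ → a.occ i ≤ k + 1 := fun i hi => by
        have h1 := hocc i hi
        have h2 := hoccT i
        omega
      have hoccb : ∀ i, i ∉ Y₁ → b.occ i ≤ k + 1 := fun i hi => by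
        have h1 := hocc i hi
        have h2 := hoccT i
        omega
      rcases hchild 0 a hRa hLa hocca hZa hda (fun h1 h2 => iha hRa hLa hocca h1 h2) with h | hfa
      · exact h
      rcases hchild 1 b hRb hLb hoccb hZb hdb (fun h1 h2 => ihb hRb hLb hoccb h1 h2) with h | hfb
      · exact h
      -- free both children, then the remaining variables
      have htc : tc E (r + 1) = 2 * tc E r + 3 * E := rfl
      have h1 : f ∈ V.O (j + (tc E r + 2 * E) + E) (Y ∪ ZT a Y₁ k) := by
        refine hfa (j + (tc E r + 2 * E)) Y hY (V.O_mono ?_ _ hf)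
        omega
      have h2 : f ∈ V.O (j + E + E) (Y ∪ ZT a Y₁ k ∪ ZT b Y₁ k) := by
        refine hfb (j + E) _ (hY.trans Finset.subset_union_left) (V.O_mono ?_ _ h1)
        omega
      have h3 : f ∈ V.O (j + E) (Y ∪ ZT a Y₁ k ∪ ZT b Y₁ k ∪ ZT T Y₁ k) := by
        refine htwo a b hRa hRb hLa hLb _ _
          (hY.trans (Finset.subset_union_left.trans Finset.subset_union_left)) ?_ ?_ ?_ (j + E) h2
        · intro i hi
          by_contra hc
          apply hi
          apply Finset.mem_union_left
          apply Finset.mem_union_right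
          rw [mem_ZT]
          exact ⟨fun hc' => hi (Finset.mem_union_left _ (Finset.mem_union_left _ (hY hc'))),
            by omega⟩
        · intro i hi
          by_contra hc
          apply hi
          apply Finset.mem_union_right
          rw [mem_ZT]
          exact ⟨fun hc' => hi (Finset.mem_union_left _ (Finset.mem_union_left _ (hY hc'))),
            by omega⟩
        · refine Ctrl.trans (J' := Sum.elim (jet κ T.val l) P) ?_ hctl
          have hgen : ∀ x ∈ Algebra.adjoin F (Set.range (Sum.elim (Sum.elim (jet κ a.val l)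
              (jet κ b.val l)) P)), Ctrl (ZT T Y₁ k : Set (Fin n))
              (Sum.elim (Sum.elim (jet κ a.val l) (jet κ b.val l)) P) x := by
            intro x hx
            refine (ctrl_of_adjoin (W := ∅) ?_).mono (Set.subset_univ _ |>.trans (by simp))
            exact Algebra.adjoin_mono Set.subset_union_left hx
          rintro (i | i)
          · apply hgen
            have h4 : T.val ∈ Algebra.adjoin F ({a.val, b.val} : Set (MvPolynomial (Fin n) F)) := by
              have h5 : T.val ∈ Algebra.adjoin F (Set.range ![a.val, b.val]) := by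
                rw [Algebra.adjoin_range_eq_range_aeval]
                exact ⟨γ, rfl⟩
              refine Algebra.adjoin_mono ?_ h5
              rintro _ ⟨i, rfl⟩
              fin_cases i
              · exact Or.inl rfl
              · exact Or.inr rfl
            refine Algebra.adjoin_mono ?_ (jet_adjoin κ h4 l i)
            rintro x (⟨i, rfl⟩ | ⟨i, rfl⟩)
            · exact ⟨Sum.inl (Sum.inl i), rfl⟩
            · exact ⟨Sum.inl (Sum.inr i), rfl⟩
          · apply hgen
            exact Algebra.subset_adjoin ⟨Sum.inr i, rfl⟩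
      have h6 : Y ∪ ZT a Y₁ k ∪ ZT b Y₁ k ∪ ZT T Y₁ k = Y ∪ ZT T Y₁ k := by
        rw [Finset.union_assoc, Finset.union_assoc]
        congr 1
        rw [← Finset.union_assoc]
        exact Finset.union_eq_right.2 (Finset.union_subset hZa hZb)
      rwa [h6] at h3

end claim

end Pool.Agent.TH668.Orf
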