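import Mathlib
import Pool.Agent.TH668.Orf.F2

/-!
Polynomials in few formulas over a family of classes: the induction on the number of reads.
(The arguments follow `Pool.Agent.H530R2.Tre4`.)
-/

set_option autoImplicit false

namespace Pool.Agent.TH668.Orf

open MvPolynomial Module Pool.Agent.H530R2 Pool.Agent.W943

universe v

section succ

variable {F : Type v} [Field F]

/-- weights of derivatives of members of the class -/
def CstO.dW (p : CstO) (W : ℕ) : ℕ → ℕ
  | 0 => W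
  | l + 1 => p.dW W l + p.der (p.dW W l)

theorem CstO.dW_mono (p : CstO) (W : ℕ) {l l' : ℕ} (h : l ≤ l') : p.dW W l ≤ p.dW W l' := by
  induction l', h using Nat.le_induction with
  | base => exact le_rfl
  | succ b _ ih => exact ih.trans (Nat.le_add_right _ _)

theorem LFamO.jet_mem {n : ℕ} {V : DChain F n} {p : CstO} {Y₀ : Finset (Fin n)}
    (𝔏 : LFamO V p Y₀) {W ρ l : ℕ} (κ : Fin ρ → Fin n) {g : MvPolynomial (Fin n) F}
    (hg : g ∈ 𝔏.K W) (i : JI ρ l) : jet κ g l i ∈ 𝔏.K (p.dW W l) := by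
  refine H530R2.jet_mem (fun l => 𝔏.K (p.dW W l)) hg (fun l => 𝔏.mono (Nat.le_add_right _ _))
    (fun l k x hx => 𝔏.mono (Nat.le_add_left _ _) (𝔏.der_mem k hx)) l i

theorem SeedsO.succ [CharZero F] {K k : ℕ} (hk : SeedsO F K k) : SeedsO F K (k + 1) := by
  classical
  intro p eR W0 W
  set W0' := W0 + 1 + p.bd W0 with hW0'
  choose sd1 hsd1 using fun W' => hk p eR W0 W'
  choose sd2 hsd2 using fun W' => hk (p.next sd1) eR W0' W'
  set N := (W + 1) ^ W + (W + 1) ^ W + W with hN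
  set W1 := p.dW W0 W + W with hW1
  set Bt := rb (p.bd W0) K with hBt
  set W2 := W + 1 + Bt + p.bd W with hW2
  set W3 := 1 + W2 + W2 with hW3
  set E := eR + (p.em N W1 + N * W) + (p.em N W + N * W) + ((p.next sd1).em N W2 + N * W) +
    (((p.next sd1).next sd2).em N W3 + N * W) with hE
  refine ⟨sd1 W + E + tc E (N + 1), ?_⟩
  intro n V Y₀ 𝔏 T hG hocc hR f hf Y hY hmem
  obtain ⟨ρ, l, κ, ι, i1, P, h1, h2, h3, h4, h5, h6⟩ := id hf
  have hpow : (ρ + 1) ^ l ≤ (W + 1) ^ W :=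
    (Nat.pow_le_pow_left (by omega) _).trans (Nat.pow_le_pow_right (by omega) h2)
  -- the weakened family
  have hreg : ∀ {a : Tr F n}, Rgo V eR Y a → ∀ Y', Y ⊆ Y' → Rgo V eR Y' a :=
    fun ha Y' hY' => ha.mono le_rfl hY'
  have hfree1 : f ∈ V.O (sd1 W + E) (Y ∪ ZT T Y k) := by
    refine tree_claimO V (Y₁ := Y) (k := k) (K := K) (N := N) (E := E) (eR := eR) (ρ := ρ) (l := l)
      (κ := κ) (P := P) (L := 𝔏.K W0) (f := f) ?_ (by omega) ?_ ?_ ?_ ?_ N T
      (hR.mono le_rfl hY) hG (fun i hi => hocc i (fun hc => hi (hY hc))) ?_ ?_ (sd1 W) Y le_rfl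
      hmem
    · rw [Fintype.card_sum, JI.card]
      omega
    · -- leaves
      intro g hg B Y' hY' hctl j hj
      refine 𝔏.free (W := W1) (r := N) (e := E - N * W) (b := W) ?_ ?_ (by omega) (hY.trans hY')
        hctl h6 (V.O_mono (by omega) _ hj)
      · rintro (i | i)
        · exact 𝔏.mono ((p.dW_mono W0 h2).trans (Nat.le_add_right _ _)) (𝔏.jet_mem κ hg i)
        · exact 𝔏.mono (Nat.le_add_left _ _) (h4 i)
      · rw [Fintype.card_sum, JI.card]
        omega
    · -- members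
      intro B Y' hY' hctl j hj
      exact 𝔏.free (W := W) (r := N) (e := E - N * W) (b := W) h4 (by omega) (by omega)
        (hY.trans hY') hctl h6 (V.O_mono (by omega) _ hj)
    · -- one tree
      intro a ha haG Y' hY' hocca ρ' κ' g hρ' hμ
      have hb : Y₀ ⊆ Y' := hY.trans hY'
      set 𝔏₁ := (𝔏.weaken hb).tree a.val sd1 (fun W' f hf Y'' hY'' hm =>
        hsd1 W' n V Y' (𝔏.weaken hb) a haG hocca (hreg ha Y' hY') f hf Y'' hY'' hm) with h𝔏₁
      have hba : ∀ i, Bdl i W2 a.val := fun i => (Gd.bdl (𝔏 := 𝔏) haG i).mono (by omega)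
      refine 𝔏₁.minor (W := W2) (r := N) (e := E) ?_ (by omega) κ' g hρ' hμ le_rfl
      rintro (i | i)
      · exact TO.jet κ (by omega) (by omega) hba i
      · exact TO.ofK' (W₁ := W) (𝔏 := 𝔏.weaken hb)
          (show 1 + W + p.bd W ≤ W2 by omega) (h4 i)
    · -- two trees
      intro a b ha hb haG hbG B Y' hY' hocca hoccb hctl j hj
      have hb0 : Y₀ ⊆ Y' := hY.trans hY'
      set 𝔏₁ := (𝔏.weaken hb0).tree a.val sd1 (fun W' f hf Y'' hY'' hm =>
        hsd1 W' n V Y' (𝔏.weaken hb0) a haG hocca (hreg ha Y' hY') f hf Y'' hY'' hm) with h𝔏₁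
      have hbG' : Gd (𝔏₁.K W0') K b := by
        refine hbG.mono ?_
        intro x hx
        exact TO.ofK' (W₁ := W0) (𝔏 := 𝔏.weaken hb0) (show 1 + W0 + p.bd W0 ≤ W0' by omega) hx
      set 𝔏₂ := 𝔏₁.tree b.val sd2 (fun W' f hf Y'' hY'' hm =>
        hsd2 W' n V Y' 𝔏₁ b hbG' hoccb (hreg hb Y' hY') f hf Y'' hY'' hm) with h𝔏₂
      have hba : ∀ i, Bdl i W2 a.val := fun i => (Gd.bdl (𝔏 := 𝔏) haG i).mono (by omega)
      have hbb : ∀ i, Bdl i W3 b.val := fun i => (Gd.bdl (𝔏 := 𝔏) hbG i).mono (by omega)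
      have hnext : (p.next sd1).bd W2 = W2 := rfl
      refine 𝔏₂.free (W := W3) (r := N) (e := E - N * W) (b := W) ?_ ?_ (by omega) le_rfl hctl h6
        (V.O_mono (by omega) _ hj)
      · rintro ((i | i) | i)
        · exact TO.ofK' (𝔏 := 𝔏₁) (W₁ := W2) (by rw [hnext])
            (TO.jet κ (by omega) (by omega) hba i)
        · exact TO.jet (𝔏 := 𝔏₁) κ (by omega) (by omega) hbb i
        · exact TO.ofK' (𝔏 := 𝔏₁) (W₁ := W2) (by rw [hnext])
            (TO.ofK' (W₁ := W) (𝔏 := 𝔏.weaken hb0)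
              (show 1 + W + p.bd W ≤ W2 by omega) (h4 i))
      · rw [Fintype.card_sum, Fintype.card_sum, JI.card]
        omega
    · refine (er_le_card _ _).trans ?_
      rw [Fintype.card_sum, JI.card]
      omega
    · refine ctrl_of_gens ?_ _
      rwa [Set.Sum.elim_range]
  have hb : Y₀ ⊆ Y ∪ ZT T Y k := hY.trans Finset.subset_union_left
  refine hsd1 W n V (Y ∪ ZT T Y k) (𝔏.weaken hb) T hG ?_ (hR.mono le_rfl hb) f hf _ le_rfl
    (V.O_mono (Nat.le_add_right _ _) _ hfree1)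
  intro i hi
  rw [Finset.mem_union, mem_ZT] at hi
  push Not at hi
  exact hi.2 hi.1

theorem SeedsO.all [CharZero F] (K k : ℕ) : SeedsO F K k := by
  induction k with
  | zero => exact SeedsO.zero K
  | succ k ih => exact ih.succ

end succ

section list

variable {F : Type v} [Field F] [CharZero F]

/-- the level for the family of one more formula -/
noncomputable def lvO (F : Type v) [Field F] [CharZero F] (K k eR : ℕ) (p : CstO) (W0 W : ℕ) : ℕ :=
  Classical.choose (SeedsO.all (F := F) K k p eR W0 W)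

/-- the parameter of the leaves after adjoining `c` formulas -/
noncomputable def CstO.trees (F : Type v) [Field F] [CharZero F] (K k eR W0 : ℕ) (p : CstO) :
    ℕ → CstO × ℕ
  | 0 => (p, W0)
  | c + 1 =>
    ((CstO.trees F K k eR W0 p c).1.next
      (lvO F K k eR (CstO.trees F K k eR W0 p c).1 (CstO.trees F K k eR W0 p c).2),
      1 + (CstO.trees F K k eR W0 p c).2 +
        (CstO.trees F K k eR W0 p c).1.bd (CstO.trees F K k eR W0 p c).2)

/-- a parameter for the values of the formulas -/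
noncomputable def CstO.tv (F : Type v) [Field F] [CharZero F] (K k eR W0 : ℕ) (p : CstO) : ℕ → ℕ
  | 0 => 0
  | c + 1 => 1 + CstO.tv F K k eR W0 p c + rb (p.bd W0) K +
      (CstO.trees F K k eR W0 p c).1.bd (CstO.tv F K k eR W0 p c)

/-- the family generated by a list of formulas -/
theorem LFamO.trees {n : ℕ} {V : DChain F n} {p : CstO} {Y₀ : Finset (Fin n)} (𝔏 : LFamO V p Y₀)
    (K k eR W0 : ℕ) : ∀ (c : ℕ) (T : Fin c → Tr F n), (∀ q, Gd (𝔏.K W0) K (T q)) →
      (∀ q i, i ∉ Y₀ → (T q).occ i ≤ k) → (∀ q, Rgo V eR Y₀ (T q)) →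
      ∃ 𝔏' : LFamO V (CstO.trees F K k eR W0 p c).1 Y₀,
        𝔏.K W0 ⊆ 𝔏'.K (CstO.trees F K k eR W0 p c).2 ∧
        ∀ q, (T q).val ∈ 𝔏'.K (CstO.tv F K k eR W0 p c) := by
  intro c
  induction c with
  | zero =>
    intro T _ _ _
    exact ⟨𝔏, fun _ hx => hx, fun q => q.elim0⟩
  | succ c ih =>
    intro T hG hocc hR
    obtain ⟨𝔏', h1, h2⟩ := ih (fun q => T q.castSucc) (fun q => hG _) (fun q => hocc _)
      (fun q => hR _)
    have hG' : Gd (𝔏'.K (CstO.trees F K k eR W0 p c).2) K (T (Fin.last c)) := (hG _).mono h1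
    refine ⟨𝔏'.tree (T (Fin.last c)).val _ (fun W f hf Y hY hm =>
      Classical.choose_spec (SeedsO.all (F := F) K k (CstO.trees F K k eR W0 p c).1 eR
        (CstO.trees F K k eR W0 p c).2 W)
        n V Y₀ 𝔏' (T (Fin.last c)) hG' (hocc _) (hR _) f hf Y hY hm), ?_, ?_⟩
    · intro x hx
      exact TO.ofK' (𝔏 := 𝔏') (W₁ := (CstO.trees F K k eR W0 p c).2) le_rfl (h1 hx)
    · intro q
      refine Fin.lastCases ?_ (fun q => ?_) q
      · exact TO.val fun i => (Gd.bdl (𝔏 := 𝔏) (hG _) i).mono (by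
          show _ ≤ 1 + CstO.tv F K k eR W0 p c + rb (p.bd W0) K + _
          omega)
      · exact TO.ofK' (𝔏 := 𝔏') (W₁ := CstO.tv F K k eR W0 p c) (by
          show _ ≤ 1 + CstO.tv F K k eR W0 p c + rb (p.bd W0) K + _
          omega) (h2 q)

end list

end Pool.Agent.TH668.Orf
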