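import Mathlib
import Pool.Agent.TH668.Orf.F3

/-!
Values of formulas reading every variable few times, modulo the ideals obtained from a chain of
primes: levels growing with the Strahler number of the product gates.
(The arguments follow `Pool.Agent.H530R2.Rnk1`.)
-/

set_option autoImplicit false

namespace Pool.Agent.TH668.Orf

open MvPolynomial Module Pool.Agent.H530R2 Pool.Agent.W943

universe v

section scale

variable {F : Type v} [Field F] {n : ℕ}

/-- rescaled levels -/
def sc (V : DChain F n) (s : ℕ) (hs : 1 ≤ s) : DChain F n where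
  I j := V.I (j * s)
  prime j := V.prime _
  anti j := V.mono (Nat.mul_le_mul_right _ (Nat.le_succ j))
  der j i Q h := V.der _ i Q (V.mono (by rw [add_mul, one_mul]; omega) h)

theorem sc_le {V : DChain F n} {s : ℕ} (hs : 1 ≤ s) {j j' : ℕ} (h : (j + 1) * s ≤ j' + 1)
    (Z : Finset (Fin n)) : V.O j' Z ≤ (sc V s hs).O j Z :=
  fun _ hQ L hL => V.mono h (hQ L hL)

theorem le_sc {V : DChain F n} {s : ℕ} (hs : 1 ≤ s) {j j' : ℕ} (h : j' + 1 ≤ (j + 1) * s)
    (Z : Finset (Fin n)) : (sc V s hs).O j Z ≤ V.O j' Z :=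
  fun _ hQ L hL => V.mono h (hQ L hL)

/-- the family over the rescaled chain -/
def LFamO.scale {V : DChain F n} {p : CstO} {Y₀ : Finset (Fin n)} (𝔏 : LFamO V p Y₀) (s : ℕ)
    (hs : 1 ≤ s) : LFamO (sc V s hs) p Y₀ where
  K := 𝔏.K
  mono := 𝔏.mono
  const_mem := 𝔏.const_mem
  add_mem := 𝔏.add_mem
  mul_mem := 𝔏.mul_mem
  der_mem := 𝔏.der_mem
  bd_mem := 𝔏.bd_mem
  seeds W f hf Y hY hmem := 𝔏.seeds W f hf Y hY
    (le_sc hs (Nat.le_mul_of_pos_right _ hs) Y hmem)

end scale

section gate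

variable {F : Type v} [Field F] {n : ℕ} {V : DChain F n} {p : CstO} {Y₀ : Finset (Fin n)}

/-- growth for products with constants -/
def CstO.g1 (p : CstO) (W : ℕ) : ℕ := (W + p.cc) + p.ml (W + p.cc)

/-- growth for twofold products -/
def CstO.g2 (p : CstO) (W : ℕ) : ℕ := p.g1 W + p.ml (p.g1 W)

/-- growth for sums -/
def CstO.g3 (p : CstO) (W : ℕ) : ℕ := p.g2 W + p.ad (p.g2 W)

/-- growth for sums -/
def CstO.g4 (p : CstO) (W : ℕ) : ℕ := p.g3 W + p.ad (p.g3 W)

/-- growth for gates -/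
def CstO.gt (p : CstO) (W : ℕ) : ℕ := p.g4 W + p.ad (p.g4 W)

theorem LFamO.gate_mem (𝔏 : LFamO V p Y₀) {W : ℕ} {f g : MvPolynomial (Fin n) F}
    (hf : f ∈ 𝔏.K W) (hg : g ∈ 𝔏.K W) (c0 c1 c2 c3 : F) :
    C c0 + C c1 * f + C c2 * g + C c3 * (f * g) ∈ 𝔏.K (p.gt W) := by
  have hC : ∀ c : F, (C c : MvPolynomial (Fin n) F) ∈ 𝔏.K (W + p.cc) :=
    fun c => 𝔏.mono (Nat.le_add_left _ _) (𝔏.const_mem c)
  have hf' : f ∈ 𝔏.K (W + p.cc) := 𝔏.mono (Nat.le_add_right _ _) hf
  have hg' : g ∈ 𝔏.K (W + p.cc) := 𝔏.mono (Nat.le_add_right _ _) hg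
  have h1 : C c1 * f ∈ 𝔏.K (p.g2 W) :=
    𝔏.mono (by unfold CstO.g2 CstO.g1; omega) (𝔏.mul_mem (hC c1) hf')
  have h2 : C c2 * g ∈ 𝔏.K (p.g2 W) :=
    𝔏.mono (by unfold CstO.g2 CstO.g1; omega) (𝔏.mul_mem (hC c2) hg')
  have h0 : (C c0 : MvPolynomial (Fin n) F) ∈ 𝔏.K (p.g2 W) :=
    𝔏.mono (by unfold CstO.g2 CstO.g1; omega) (hC c0)
  have h3 : C c3 * (f * g) ∈ 𝔏.K (p.g2 W) := by
    refine 𝔏.mono (Nat.le_add_left _ _) (𝔏.mul_mem (W := p.g1 W) ?_ ?_)
    · exact 𝔏.mono (by unfold CstO.g1; omega) (hC c3)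
    · exact 𝔏.mono (Nat.le_add_left _ _) (𝔏.mul_mem hf' hg')
  have h4 : C c0 + C c1 * f ∈ 𝔏.K (p.g3 W) := 𝔏.mono (Nat.le_add_left _ _) (𝔏.add_mem h0 h1)
  have h5 : C c0 + C c1 * f + C c2 * g ∈ 𝔏.K (p.g4 W) :=
    𝔏.mono (Nat.le_add_left _ _) (𝔏.add_mem h4 (𝔏.mono (by unfold CstO.g3; omega) h2))
  exact 𝔏.mono (Nat.le_add_left _ _)
    (𝔏.add_mem h5 (𝔏.mono (by unfold CstO.g4 CstO.g3; omega) h3))

end gate

section ml

variable {F : Type v} [Field F] {n : ℕ}

/-- nonvanishing of the values of formulas modulo the ideals -/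
def ValO (V : DChain F n) (L : Set (MvPolynomial (Fin n) F)) (K k t m : ℕ) : Prop :=
  ∀ (Y : Finset (Fin n)) (T : Tr F n), Gd L K T → T.rk ≤ t →
    (∀ i, i ∉ Y → T.occ i ≤ k) → ∀ c : F, T.val + C c ∈ V.O m Y → T.val + C c = 0

theorem ValO.mono {V : DChain F n} {L : Set (MvPolynomial (Fin n) F)} {K k t m m' : ℕ}
    (h : ValO V L K k t m) (hm : m ≤ m') : ValO V L K k t m' :=
  fun Y T h1 h3 h4 c h5 => h Y T h1 h3 h4 c (V.O_mono hm _ h5)

variable [CharZero F]

theorem O_prime (V : DChain F n) (j : ℕ) (Y : Finset (Fin n)) : (V.O j Y).IsPrime :=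
  V.H_prime _ Y

theorem C_notMemO (V : DChain F n) {j : ℕ} {Y : Finset (Fin n)} {c : F} (hc : c ≠ 0) :
    (C c : MvPolynomial (Fin n) F) ∉ V.O j Y := by
  intro h
  exact (O_prime V j Y).ne_top (Ideal.eq_top_of_isUnit_mem _ h ((isUnit_iff_ne_zero.2 hc).map C))

/-- affine gate partials do not belong to the ideals -/
theorem ValO.aff {V : DChain F n} {L : Set (MvPolynomial (Fin n) F)} {K k t m : ℕ}
    (h : ValO V L K k t m) {Y : Finset (Fin n)} {T : Tr F n} (h1 : Gd L K T)
    (h3 : T.rk ≤ t) (h4 : ∀ i, i ∉ Y → T.occ i ≤ k) {c c' : F}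
    (h5 : C c + C c' * T.val ≠ 0) : C c + C c' * T.val ∉ V.O m Y := by
  by_cases hc' : c' = 0
  · subst hc'
    rw [C_0, zero_mul, add_zero] at h5 ⊢
    exact C_notMemO V (fun hc => h5 (by rw [hc, C_0]))
  · intro hmem
    have h6 : C c + C c' * T.val = C c' * (T.val + C (c / c')) := by
      rw [mul_add, ← C_mul, mul_div_cancel₀ _ hc']
      ring
    rw [h6] at hmem h5
    have h7 := (O_prime V m Y).mem_or_mem hmem
    rcases h7 with h7 | h7
    · exact C_notMemO V hc' h7
    · exact h5 (by rw [h Y T h1 h3 h4 _ h7, mul_zero])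

/-- regularity of the gates from the values -/
theorem ValO.reg {V : DChain F n} {L : Set (MvPolynomial (Fin n) F)} {K k t m : ℕ}
    (h : ValO V L K k t m) {Y : Finset (Fin n)} {T : Tr F n} (h1 : Gd L K T)
    (h3 : T.rk ≤ t) (h4 : ∀ i, i ∉ Y → T.occ i ≤ k) : Rgo V m Y T := by
  induction T with
  | leaf g => trivial
  | gate γ a b iha ihb =>
    have hGa := h1.left
    have hGb := h1.right
    obtain ⟨⟨hma, hmb, c0, c1, c2, c3, rfl⟩, _, _⟩ := h1
    have h3a : max a.rk b.rk ≤ t := by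
      refine le_trans ?_ h3
      rw [Tr.rk]
      split_ifs
      · exact le_rfl
      · exact max_le_stf _ _
    have hoa : ∀ i, i ∉ Y → a.occ i ≤ k := fun i hi => (Nat.le_add_right _ _).trans (h4 i hi)
    have hob : ∀ i, i ∉ Y → b.occ i ≤ k := fun i hi => (Nat.le_add_left _ _).trans (h4 i hi)
    refine ⟨iha hGa (by omega) hoa, ihb hGb (by omega) hob, ?_⟩
    intro i hi0 Y' hY'
    fin_cases i
    · simp only [Fin.zero_eta, Fin.isValue] at hi0 ⊢
      rw [ML_partial0] at hi0 ⊢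
      exact h.aff hGb (by omega) (fun i hi => hob i (fun hc => hi (hY' hc))) hi0
    · simp only [Fin.mk_one, Fin.isValue] at hi0 ⊢
      rw [ML_partial1] at hi0 ⊢
      exact h.aff hGa (by omega) (fun i hi => hoa i (fun hc => hi (hY' hc))) hi0

end ml

section free

variable {F : Type v} [Field F] [CharZero F] {n : ℕ}

/-- freeing variables on which a polynomial does not depend -/
theorem O_free_indep (V : DChain F n) {f : MvPolynomial (Fin n) F} (S : Finset (Fin n)) :
    (∀ x ∈ S, pderiv x f = 0) → ∀ {j : ℕ} {Y : Finset (Fin n)}, f ∈ V.O j Y →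
    f ∈ V.O j (Y ∪ S) := by
  classical
  induction S using Finset.induction_on with
  | empty => intro _ j Y h; rwa [Finset.union_empty]
  | insert i S _ ih =>
    intro hd j Y h
    have h1 := ih (fun x hx => hd x (Finset.mem_insert_of_mem hx)) h
    rw [Finset.union_insert]
    refine V.O_lossless (ρ := 0) (κ := Fin.elim0) (m := Fin.elim0) (μ := 1)
        (fun p => p.elim0) ?_ h1 ?_
    · rw [hd i (Finset.mem_insert_self _ _), mul_zero]
      simp
    · intro hc
      exact (O_prime V j _).ne_top ((Ideal.eq_top_iff_one _).2 hc)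

/-- freeing variables after one of them -/
theorem O_free_rank1 (V : DChain F n) {f : MvPolynomial (Fin n) F} {x : Fin n}
    (S : Finset (Fin n)) {j : ℕ} : ∀ {Y : Finset (Fin n)}, x ∈ Y →
    (∀ Y', Y ⊆ Y' → pderiv x f ∉ V.O j Y') → f ∈ V.O j Y → f ∈ V.O j (Y ∪ S) := by
  classical
  induction S using Finset.induction_on with
  | empty => intro Y _ _ h; rwa [Finset.union_empty]
  | insert i S _ ih =>
    intro Y hx hd h
    have h1 := ih hx hd h
    rw [Finset.union_insert]
    refine V.O_lossless (ρ := 1) (κ := fun _ => x) (m := fun _ => pderiv i f)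
        (μ := pderiv x f) (fun _ => Finset.mem_union_left _ hx) ?_ h1
        (hd _ Finset.subset_union_left)
    simp [mul_comm]

end free

section succ

variable {F : Type v} [Field F] [CharZero F]

/-- the constant of the recursion -/
noncomputable def vO (F : Type v) [Field F] [CharZero F] (K k W0 : ℕ) (p : CstO) : ℕ :=
  (CstO.trees F K k 1 W0 p 2).1.sd ((CstO.trees F K k 1 W0 p 2).1.der
    ((CstO.trees F K k 1 W0 p 2).1.gt (CstO.tv F K k 1 W0 p 2))) + p.sd (p.der W0) + 2

/-- the derivative of a gate of formulas with at most `k` reads -/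
theorem gate_pderivO {n : ℕ} {V : DChain F n} {p : CstO} {Y₀ : Finset (Fin n)}
    (𝔏 : LFamO V p Y₀) {K k W0 s t : ℕ} (hs : 1 ≤ s) (hV : ValO V (𝔏.K W0) K k t s)
    {u v : Tr F n} (hu : Gd (𝔏.K W0) K u) (hv : Gd (𝔏.K W0) K v) (hsu : u.rk ≤ t)
    (hsv : v.rk ≤ t) {Y : Finset (Fin n)} (hY : Y₀ ⊆ Y) (hou : ∀ i, i ∉ Y → u.occ i ≤ k)
    (hov : ∀ i, i ∉ Y → v.occ i ≤ k) {c0 c1 c2 c3 : F} {x : Fin n}
    (hx : pderiv x (C c0 + C c1 * u.val + C c2 * v.val + C c3 * (u.val * v.val)) ≠ 0) :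
    pderiv x (C c0 + C c1 * u.val + C c2 * v.val + C c3 * (u.val * v.val)) ∉
      V.O (vO F K k W0 p * s) Y := by
  have hreg : ∀ T : Tr F n, Gd (𝔏.K W0) K T → T.rk ≤ t →
      (∀ i, i ∉ Y → T.occ i ≤ k) → Rgo (sc V s hs) 1 Y T := by
    intro T h1 h3 h4
    have h5 := hV.reg h1 h3 h4
    clear * - h5
    induction T with
    | leaf g => trivial
    | gate γ a b iha ihb =>
      refine ⟨iha h5.1, ihb h5.2.1, fun i h0 Y' hY' hc => ?_⟩
      exact h5.2.2 i h0 Y' hY' (le_sc hs (by omega) Y' hc)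
  obtain ⟨𝔏', h1, h2⟩ := ((𝔏.scale s hs).weaken hY).trees K k 1 W0 2 ![u, v]
    (by intro q; fin_cases q; exacts [hu, hv])
    (by intro q; fin_cases q; exacts [hou, hov])
    (by intro q; fin_cases q; exacts [hreg u hu hsu hou, hreg v hv hsv hov])
  intro hmem
  apply hx
  have h3 := 𝔏'.gate_mem (h2 0) (h2 1) c0 c1 c2 c3
  refine 𝔏'.seeds _ _ (𝔏'.der_mem x h3) Y le_rfl ?_
  refine sc_le hs ?_ Y hmem
  unfold vO
  refine (Nat.mul_le_mul_right s ?_).trans (Nat.le_succ _)
  omega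

/-- a derivative which does not belong to the ideals -/
theorem descendO {n : ℕ} {V : DChain F n} {p : CstO} (𝔏 : LFamO V p ∅)
    {K k W0 s t m' M : ℕ} (hs : 1 ≤ s) (hM : m' ≤ M) (hM' : vO F K k W0 p * s ≤ M)
    (hV : ValO V (𝔏.K W0) K k t s)
    (hV' : t ≠ 0 → ValO V (𝔏.K W0) K (k + 1) (t - 1) m') {Y : Finset (Fin n)} (T : Tr F n) :
    Gd (𝔏.K W0) K T → T.rk ≤ t → (∀ i, i ∉ Y → T.occ i ≤ k + 1) →
    (∃ x ∈ ZT T Y k, pderiv x T.val ≠ 0) →
    ∃ x ∈ ZT T Y k, pderiv x T.val ≠ 0 ∧ ∃ S ⊆ ZT T Y k, (∀ y ∈ S, pderiv y T.val = 0) ∧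
      ∀ Y', Y ∪ S ⊆ Y' → pderiv x T.val ∉ V.O M Y' := by
  classical
  induction T with
  | leaf g =>
    intro hL _ _ ⟨x, hx, hx0⟩
    refine ⟨x, hx, hx0, ∅, Finset.empty_subset _, by simp, ?_⟩
    intro Y' _ hmem
    apply hx0
    refine 𝔏.seeds _ _ (𝔏.der_mem x hL.2.1) Y' (Finset.empty_subset _) (V.O_mono ?_ _ hmem)
    have h1 : p.sd (p.der W0) ≤ vO F K k W0 p := by unfold vO; omega
    exact h1.trans ((Nat.le_mul_of_pos_right _ hs).trans hM')
  | gate γ u v ihu ihv =>
    intro hG hsz hocc hex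
    have hGu := hG.left
    have hGv := hG.right
    obtain ⟨⟨hmu, hmv, c0, c1, c2, c3, hγ⟩, _, _⟩ := hG
    have hcpr : cpr γ = c3 := by rw [hγ, cpr_affine]
    have hmax : max u.rk v.rk ≤ t := by
      refine le_trans ?_ hsz
      rw [Tr.rk]
      split_ifs
      · exact le_rfl
      · exact max_le_stf _ _
    have hru : u.rk ≤ t := by omega
    have hrv : v.rk ≤ t := by omega
    set T : Tr F n := .gate γ u v with hT
    have hoccT : ∀ i, T.occ i = u.occ i + v.occ i := fun i => rfl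
    have hval : T.val = aeval ![u.val, v.val] γ := rfl
    have hval' : T.val = C c0 + C c1 * u.val + C c2 * v.val + C c3 * (u.val * v.val) := by
      rw [hval, hγ]
      simp only [map_add, map_mul, aeval_C, aeval_X, algebraMap_eq, Matrix.cons_val_zero,
          Matrix.cons_val_one]
    have hou : ∀ i, i ∉ Y → u.occ i ≤ k + 1 := fun i hi => by
      have := hocc i hi; have := hoccT i; omega
    have hov : ∀ i, i ∉ Y → v.occ i ≤ k + 1 := fun i hi => by
      have := hocc i hi; have := hoccT i; omega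
    have hZu : ZT u Y k ⊆ ZT T Y k := by
      intro i hi
      rw [mem_ZT] at hi ⊢
      have := hoccT i
      exact ⟨hi.1, by omega⟩
    have hZv : ZT v Y k ⊆ ZT T Y k := by
      intro i hi
      rw [mem_ZT] at hi ⊢
      have := hoccT i
      exact ⟨hi.1, by omega⟩
    have hdu : ∀ i ∈ ZT u Y k, pderiv i T.val = (C c1 + C c3 * v.val) * pderiv i u.val := by
      intro i hi
      rw [mem_ZT] at hi
      have h1 := hocc i hi.1
      have h2 := hoccT i
      rw [hval, pderiv_gate, Tr.pderiv_val (T := v) (k := i) (by omega), mul_zero, add_zero,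
        hγ, ML_partial0]
    have hdv : ∀ i ∈ ZT v Y k, pderiv i T.val = (C c2 + C c3 * u.val) * pderiv i v.val := by
      intro i hi
      rw [mem_ZT] at hi
      have h1 := hocc i hi.1
      have h2 := hoccT i
      rw [hval, pderiv_gate, Tr.pderiv_val (T := u) (k := i) (by omega), mul_zero, zero_add,
        hγ, ML_partial1]
    -- passing to a child
    have step : ∀ (w w' : Tr F n) (e : F), ZT w Y k ⊆ ZT T Y k →
        (∀ i ∈ ZT w Y k, pderiv i T.val = (C e + C c3 * w'.val) * pderiv i w.val) →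
        (∃ x ∈ ZT w Y k, pderiv x w.val ≠ 0 ∧ ∃ S ⊆ ZT w Y k, (∀ y ∈ S, pderiv y w.val = 0) ∧
          ∀ Y', Y ∪ S ⊆ Y' → pderiv x w.val ∉ V.O M Y') →
        (C e + C c3 * w'.val ≠ 0) →
        (∀ Y', Y ⊆ Y' → C e + C c3 * w'.val ∉ V.O M Y') →
        ∃ x ∈ ZT T Y k, pderiv x T.val ≠ 0 ∧ ∃ S ⊆ ZT T Y k, (∀ y ∈ S, pderiv y T.val = 0) ∧
          ∀ Y', Y ∪ S ⊆ Y' → pderiv x T.val ∉ V.O M Y' := by
      rintro w w' e hZw hdw ⟨x, hx, hx0, S, hS, hS0, hxS⟩ hne hno
      refine ⟨x, hZw hx, ?_, S, hS.trans hZw, ?_, ?_⟩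
      · rw [hdw x hx]
        exact mul_ne_zero hne hx0
      · intro y hy
        rw [hdw y (hS hy), hS0 y hy, mul_zero]
      · intro Y' hY' hmem
        rw [hdw x hx] at hmem
        rcases (O_prime V _ _).mem_or_mem hmem with h | h
        · exact hno Y' (Finset.subset_union_left.trans hY') h
        · exact hxS Y' hY' h
    -- the main case distinction, for `w` heavy and `w'` light
    have main : ∀ (w w' : Tr F n) (e e' : F), ZT w Y k ⊆ ZT T Y k → ZT w' Y k ⊆ ZT T Y k →
        Gd (𝔏.K W0) K w → Gd (𝔏.K W0) K w' → w.rk ≤ t →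
        (c3 ≠ 0 → t ≠ 0 ∧ w'.rk ≤ t - 1) → (∀ i, i ∉ Y → w.occ i ≤ k + 1) →
        (∀ i, i ∉ Y → w'.occ i ≤ k + 1) →
        (∀ i ∈ ZT w Y k, pderiv i T.val = (C e + C c3 * w'.val) * pderiv i w.val) →
        (∀ i ∈ ZT w' Y k, pderiv i T.val = (C e' + C c3 * w.val) * pderiv i w'.val) →
        ((∃ x ∈ ZT w Y k, pderiv x w.val ≠ 0) →
          ∃ x ∈ ZT w Y k, pderiv x w.val ≠ 0 ∧ ∃ S ⊆ ZT w Y k, (∀ y ∈ S, pderiv y w.val = 0) ∧
            ∀ Y', Y ∪ S ⊆ Y' → pderiv x w.val ∉ V.O M Y') →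
        ((∃ x ∈ ZT w' Y k, pderiv x w'.val ≠ 0) →
          ∃ x ∈ ZT w' Y k, pderiv x w'.val ≠ 0 ∧ ∃ S ⊆ ZT w' Y k,
            (∀ y ∈ S, pderiv y w'.val = 0) ∧
            ∀ Y', Y ∪ S ⊆ Y' → pderiv x w'.val ∉ V.O M Y') →
        (∃ x ∈ ZT T Y k, pderiv x T.val ≠ 0 ∧ ∃ S ⊆ ZT T Y k, (∀ y ∈ S, pderiv y T.val = 0) ∧
          ∀ Y', Y ∪ S ⊆ Y' → pderiv x T.val ∉ V.O M Y') ∨
          ((∀ x ∈ ZT w Y k, pderiv x T.val = 0) ∧ (∀ x ∈ ZT w' Y k, pderiv x T.val = 0)) := by
      intro w w' e e' hZw hZw' hGw hGw' hsw hsw' how how' hdw hdw' ihw ihw'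
      by_cases h1 : ∃ x ∈ ZT w Y k, pderiv x T.val ≠ 0
      · left
        obtain ⟨x, hx, hx0⟩ := h1
        rw [hdw x hx] at hx0
        refine step w w' e hZw hdw (ihw ⟨x, hx, right_ne_zero_of_mul hx0⟩)
          (left_ne_zero_of_mul hx0) ?_
        intro Y' hY' hmem
        by_cases hc3 : c3 = 0
        · subst hc3
          rw [C_0, zero_mul, add_zero] at hmem hx0
          exact C_notMemO V (fun hc => left_ne_zero_of_mul hx0 (by rw [hc, C_0])) hmem
        · obtain ⟨ht, hsw''⟩ := hsw' hc3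
          exact (hV' ht).aff hGw' hsw'' (fun i hi => how' i (fun hc => hi (hY' hc)))
            (left_ne_zero_of_mul hx0) (V.O_mono hM _ hmem)
      · push Not at h1
        by_cases h2 : ∃ x ∈ ZT w' Y k, pderiv x T.val ≠ 0
        · left
          obtain ⟨x, hx, hx0⟩ := h2
          rw [hdw' x hx] at hx0
          refine step w' w e' hZw' hdw' (ihw' ⟨x, hx, right_ne_zero_of_mul hx0⟩)
            (left_ne_zero_of_mul hx0) ?_
          intro Y' hY' hmem
          by_cases hc3 : c3 = 0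
          · subst hc3
            rw [C_0, zero_mul, add_zero] at hmem hx0
            exact C_notMemO V (fun hc => left_ne_zero_of_mul hx0 (by rw [hc, C_0])) hmem
          · have h3 : C e + C c3 * w'.val ≠ 0 := by
              intro h4
              apply right_ne_zero_of_mul hx0
              have h5 := congrArg (pderiv x) h4
              rw [map_add, pderiv_C, zero_add, pderiv_mul, pderiv_C, zero_mul, zero_add,
                map_zero, mul_eq_zero] at h5
              exact h5.resolve_left (fun h6 => hc3 (C_injective _ _ (by rw [h6, C_0])))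
            have h4 : ∀ y ∈ ZT w Y k, pderiv y w.val = 0 := by
              intro y hy
              have h5 := h1 y hy
              rw [hdw y hy] at h5
              exact (mul_eq_zero.1 h5).resolve_left h3
            have h6 : C e' + C c3 * w.val ∈ V.O M (Y' ∪ ZT w Y k) := by
              refine O_free_indep V _ ?_ hmem
              intro y hy
              rw [map_add, pderiv_C, zero_add, pderiv_mul, pderiv_C, zero_mul, zero_add,
                h4 y hy, mul_zero]
            refine hV.aff hGw hsw ?_ (left_ne_zero_of_mul hx0) (V.O_mono ?_ _ h6)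
            · intro i hi
              by_contra hc
              apply hi
              apply Finset.mem_union_right
              rw [mem_ZT]
              exact ⟨fun hc' => hi (Finset.mem_union_left _ (hY' hc')), by omega⟩
            · have h7 : 1 ≤ vO F K k W0 p := Nat.succ_pos _
              exact (Nat.le_mul_of_pos_left _ h7).trans hM'
        · push Not at h2
          exact Or.inr ⟨h1, h2⟩
    have stop : (∀ x ∈ ZT u Y k, pderiv x T.val = 0) → (∀ x ∈ ZT v Y k, pderiv x T.val = 0) →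
        ∃ x ∈ ZT T Y k, pderiv x T.val ≠ 0 ∧ ∃ S ⊆ ZT T Y k, (∀ y ∈ S, pderiv y T.val = 0) ∧
          ∀ Y', Y ∪ S ⊆ Y' → pderiv x T.val ∉ V.O M Y' := by
      intro h1 h2
      obtain ⟨x, hx, hx0⟩ := hex
      refine ⟨x, hx, hx0, ZT u Y k ∪ ZT v Y k, Finset.union_subset hZu hZv, ?_, ?_⟩
      · intro y hy
        rcases Finset.mem_union.1 hy with h | h
        · exact h1 y h
        · exact h2 y h
      · intro Y' hY' hmem
        rw [hval'] at hmem hx0
        refine gate_pderivO 𝔏 hs hV hGu hGv (by omega) (by omega) (Y := Y')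
          (Finset.empty_subset _) ?_ ?_ hx0 (V.O_mono hM' _ hmem)
        · intro i hi
          by_contra hc
          apply hi
          apply hY'
          apply Finset.mem_union_right
          apply Finset.mem_union_left
          rw [mem_ZT]
          exact ⟨fun hc' => hi (hY' (Finset.mem_union_left _ hc')), by omega⟩
        · intro i hi
          by_contra hc
          apply hi
          apply hY'
          apply Finset.mem_union_right
          apply Finset.mem_union_right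
          rw [mem_ZT]
          exact ⟨fun hc' => hi (hY' (Finset.mem_union_left _ hc')), by omega⟩
    have hfin : (c3 ≠ 0 → t ≠ 0 ∧ v.rk ≤ t - 1) ∨ (c3 ≠ 0 → t ≠ 0 ∧ u.rk ≤ t - 1) := by
      by_cases hc3 : c3 = 0
      · exact Or.inl fun h => absurd hc3 h
      · have h1 : stf u.rk v.rk ≤ t := by
          have h2 : T.rk = stf u.rk v.rk := by
            rw [hT, Tr.rk, if_neg (by rw [hcpr]; exact hc3)]
          rw [← h2]
          exact hsz
        unfold stf at h1
        split_ifs at h1 with h2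
        · exact Or.inl fun _ => by omega
        · rcases Nat.lt_or_ge u.rk v.rk with h3 | h3
          · exact Or.inr fun _ => by omega
          · exact Or.inl fun _ => by omega
    rcases hfin with hlight | hlight
    · rcases main u v c1 c2 hZu hZv hGu hGv hru hlight hou hov hdu hdv
        (ihu hGu hru hou) (ihv hGv hrv hov) with h | ⟨h1, h2⟩
      · exact h
      · exact stop h1 h2
    · rcases main v u c2 c1 hZv hZu hGv hGu hrv hlight hov hou hdv hdu
        (ihv hGv hrv hov) (ihu hGu hru hou) with h | ⟨h1, h2⟩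
      · exact h
      · exact stop h2 h1

theorem ValO.succ {n : ℕ} {V : DChain F n} {p : CstO} (𝔏 : LFamO V p ∅)
    {K k W0 s t m' M : ℕ} (hs : 1 ≤ s) (hM : m' ≤ M) (hM' : vO F K k W0 p * s ≤ M)
    (hV : ValO V (𝔏.K W0) K k t s)
    (hV' : t ≠ 0 → ValO V (𝔏.K W0) K (k + 1) (t - 1) m') :
    ValO V (𝔏.K W0) K (k + 1) t (M + (rb (p.bd W0) K + 1)) := by
  classical
  intro Y T hG hsz hocc c hmem
  have hC : 1 ≤ vO F K k W0 p := Nat.succ_pos _
  have hle : s ≤ M := (Nat.le_mul_of_pos_left _ hC).trans hM'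
  have hd : ∀ x, pderiv x (T.val + C c) = pderiv x T.val := by
    intro x
    rw [map_add, pderiv_C, add_zero]
  have hfin : ∀ {j : ℕ} {Y' : Finset (Fin n)}, s ≤ j → ZT T Y k ⊆ Y' → Y ⊆ Y' →
      T.val + C c ∈ V.O j Y' → T.val + C c = 0 := by
    intro j Y' hj hZ hYY' h
    refine hV Y' T hG hsz ?_ c (V.O_mono hj _ h)
    intro i hi
    by_contra hc
    apply hi
    apply hZ
    rw [mem_ZT]
    exact ⟨fun hc' => hi (hYY' hc'), by omega⟩
  by_cases hex : ∃ x ∈ ZT T Y k, pderiv x T.val ≠ 0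
  · obtain ⟨x, hx, hx0, S, hS, hS0, hxS⟩ := descendO 𝔏 hs hM hM' hV hV' T hG hsz hocc hex
    have h1 : T.val + C c ∈ V.O (M + (rb (p.bd W0) K + 1)) (Y ∪ S) :=
      O_free_indep V S (fun y hy => by rw [hd, hS0 y hy]) hmem
    have h2 : T.val + C c ∈ V.O M (insert x (Y ∪ S)) :=
      V.O_free ((hG.bdl x).addO (Bdl.const c)) h1
    have h3 : T.val + C c ∈ V.O M (insert x (Y ∪ S) ∪ ZT T Y k) := by
      refine O_free_rank1 V _ (Finset.mem_insert_self _ _) ?_ h2
      intro Y' hY'
      rw [hd]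
      exact hxS Y' ((Finset.subset_insert _ _).trans hY')
    exact hfin hle Finset.subset_union_right
      (Finset.subset_union_left.trans ((Finset.subset_insert _ _).trans
        Finset.subset_union_left)) h3
  · push Not at hex
    have h1 : T.val + C c ∈ V.O (M + (rb (p.bd W0) K + 1)) (Y ∪ ZT T Y k) :=
      O_free_indep V _ (fun y hy => by rw [hd, hex y hy]) hmem
    exact hfin (hle.trans (Nat.le_add_right _ _)) Finset.subset_union_right
      Finset.subset_union_left h1

/-- Values of formulas of Strahler number at most `t` reading every variable at most `K` times, and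
every variable outside the free set at most `k` times. -/
theorem ValO.all (F : Type v) [Field F] [CharZero F] (p : CstO) (W0 K k : ℕ) : ∃ m : ℕ, 1 ≤ m ∧
    ∀ (n : ℕ) (V : DChain F n) (𝔏 : LFamO V p ∅) (t : ℕ),
      ValO V (𝔏.K W0) K k t (m * (t + 1)) := by
  induction k with
  | zero =>
    refine ⟨1, le_rfl, ?_⟩
    intro n V 𝔏 t Y T _ _ hocc c hmem
    refine V.O_supp ?_ hmem
    refine Subalgebra.add_mem _ ?_ (Subalgebra.algebraMap_mem _ c)
    refine supported_mono ?_ T.val_supp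
    intro i hi
    by_contra hc
    have := hocc i (fun hc' => hc (Finset.mem_coe.2 hc'))
    exact hi (by omega)
  | succ k ih =>
    obtain ⟨m, hm, hV⟩ := ih
    set B := rb (p.bd W0) K + 1 with hB
    refine ⟨vO F K k W0 p * m + B, Nat.succ_pos _, ?_⟩
    intro n V 𝔏 t
    have hs : ∀ t, 1 ≤ m * (t + 1) := fun t => Nat.mul_pos hm (Nat.succ_pos t)
    induction t with
    | zero =>
      have h1 := ValO.succ 𝔏 (hs 0) (m' := 0) (M := vO F K k W0 p * (m * (0 + 1))) (Nat.zero_le _)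
        le_rfl (hV n V 𝔏 0) (fun h => absurd rfl h)
      refine h1.mono (le_of_eq ?_)
      ring
    | succ t iht =>
      have h1 := ValO.succ 𝔏 (hs (t + 1)) (m' := (vO F K k W0 p * m + B) * (t + 1))
        (M := vO F K k W0 p * (m * (t + 1 + 1)) + B * (t + 1)) ?_ (Nat.le_add_right _ _)
        (hV n V 𝔏 (t + 1)) (fun _ => iht)
      · refine h1.mono (le_of_eq ?_)
        ring
      · have h2 : vO F K k W0 p * (m * (t + 1 + 1)) + B * (t + 1) =
            (vO F K k W0 p * m + B) * (t + 1) + vO F K k W0 p * m := by ring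
        rw [h2]
        exact Nat.le_add_right _ _

end succ

end Pool.Agent.TH668.Orf
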