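import Mathlib
import Pool.Agent.TH668.Orf.F4
import Pool.Agent.W943.Ork5

/-!
Composites of bounded transcendence degree of formulas with few reads over the classes of a family,
modulo the primes of a chain which loses one step under differentiation.
-/

set_option autoImplicit false

namespace Pool.Agent.TH668.Orf

open MvPolynomial Module Pool.Agent.H530R2 Pool.Agent.W943

universe v

/-- the constants of a family of classes -/
noncomputable def cst {F : Type v} [Field F] (𝔎 : FamO F) : CstO where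
  cc := 𝔎.cc
  ad W := 𝔎.ad W W
  ml W := 𝔎.ml W W
  der := 𝔎.der
  bd := 𝔎.bd
  sd W := (𝔎.seeds W).choose

/-- a family of classes over a chain -/
noncomputable def ofFam {F : Type v} [Field F] (𝔎 : FamO F) {n : ℕ} (V : DChain F n) :
    LFamO V (cst 𝔎) ∅ where
  K := 𝔎.K n
  mono := 𝔎.mono
  const_mem := 𝔎.const_mem
  add_mem := 𝔎.add_mem
  mul_mem := 𝔎.mul_mem
  der_mem := 𝔎.der_mem
  bd_mem := 𝔎.bd_mem
  seeds W f hf Y _ h := (𝔎.seeds W).choose_spec n V f hf Y h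

theorem O_empty {F : Type v} [Field F] {n : ℕ} (V : DChain F n) (j : ℕ) :
    V.O j ∅ = V.I (j + 1) := V.H_empty (j + 1)

section comp

variable {F : Type} [Field F] [CharZero F]

/-- the level for the minors of `ρ` formulas -/
noncomputable def mO (F : Type) [Field F] [CharZero F] (K k W0 : ℕ) (p : CstO) (ρ : ℕ) : ℕ :=
  (CstO.trees F K k 1 W0 p ρ).1.sd ((CstO.trees F K k 1 W0 p ρ).1.dt
    ((CstO.trees F K k 1 W0 p ρ).1.der (CstO.tv F K k 1 W0 p ρ)) ρ) + 1

/-- minors of the Jacobian matrix of formulas -/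
theorem minorO {n : ℕ} {V : DChain F n} {p : CstO} (𝔏 : LFamO V p ∅) {K W0 s t : ℕ}
    (hs : 1 ≤ s) (hV : ValO V (𝔏.K W0) K K t s) {ρ : ℕ} {T : Fin ρ → Tr F n}
    (hT : ∀ a, Gd (𝔏.K W0) K (T a)) (ht : ∀ a, (T a).rk ≤ t) {κ : Fin ρ → Fin n}
    (hdet : (Matrix.of fun a b => pderiv (κ b) (T a).val).det ≠ 0) :
    (Matrix.of fun a b => pderiv (κ b) (T a).val).det ∉ V.I (mO F K K W0 p ρ * s) := by
  have hreg : ∀ T : Tr F n, Gd (𝔏.K W0) K T → T.rk ≤ t → Rgo (sc V s hs) 1 ∅ T := by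
    intro T h1 h3
    have h5 := hV.reg h1 h3 (Y := ∅) (fun i _ => h1.2.2 i)
    clear * - h5
    induction T with
    | leaf g => trivial
    | gate γ a b iha ihb =>
      refine ⟨iha h5.1, ihb h5.2.1, fun i h0 Y' hY' hc => ?_⟩
      exact h5.2.2 i h0 Y' hY' (le_sc hs (by omega) Y' hc)
  obtain ⟨𝔏', h1, h2⟩ := (𝔏.scale s hs).trees K K 1 W0 ρ T hT (fun q i _ => (hT q).2.2 i)
    (fun q => hreg _ (hT q) (ht q))
  intro hmem
  apply hdet
  refine 𝔏'.seeds _ _ (𝔏'.det_mem (Q := ρ) le_rfl fun a b => 𝔏'.der_mem _ (h2 a)) ∅ le_rfl ?_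
  rw [O_empty]
  exact hmem

/-- Composites of transcendence degree at most `r` of formulas. -/
theorem compositeO (𝔎 : FamO F) (K W0 r : ℕ) : ∃ m : ℕ, ∀ (n : ℕ) (V : DChain F n) (t N : ℕ)
    (T : Fin N → Tr F n) (Φ : MvPolynomial (Fin N) F),
    (∀ i, Gd (𝔎.K n W0) K (T i)) → (∀ i, (T i).rk ≤ t) →
    (∀ s : Fin (r + 1) → Fin N, ¬ AlgebraicIndependent F (fun i => (T (s i)).val)) →
    aeval (fun i => (T i).val) Φ ≠ 0 → aeval (fun i => (T i).val) Φ ∉ V.I (m * (t + 1)) := by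
  classical
  obtain ⟨m, hm, hV⟩ := ValO.all F (cst 𝔎) W0 K K
  set M := ∑ ρ ∈ Finset.range (r + 1), mO F K K W0 (cst 𝔎) ρ with hM
  refine ⟨M * m + r, ?_⟩
  intro n V t N T Φ hG ht htr h0 hmem
  have hs : 1 ≤ m * (t + 1) := Nat.mul_pos hm (Nat.succ_pos t)
  refine V.comp_trdeg (fun i => (T i).val) r (M * (m * (t + 1))) htr ?_ h0 (V.mono ?_ hmem)
  · intro ρ κ s hρ hdet hmem'
    refine minorO (ofFam 𝔎 V) hs (hV n V (ofFam 𝔎 V) t) (T := fun a => T (s a))
      (fun a => hG _) (fun a => ht _) hdet (V.mono (Nat.mul_le_mul_right _ ?_) hmem')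
    exact Finset.single_le_sum (f := fun ρ => mO F K K W0 (cst 𝔎) ρ)
      (fun _ _ => Nat.zero_le _) (Finset.mem_range.2 (Nat.lt_succ_of_le hρ))
  · have h1 : (M * m + r) * (t + 1) = M * (m * (t + 1)) + r * (t + 1) := by ring
    rw [h1]
    exact Nat.add_le_add_left (Nat.le_mul_of_pos_right _ (Nat.succ_pos t)) _

end comp

end Pool.Agent.TH668.Orf
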