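import Mathlib
import Pool.Agent.TH668.Orf.F5
import Pool.Agent.W943.Ork6

/-!
The family generated by the values of formulas with few reads and bounded Strahler number.
-/

set_option autoImplicit false

namespace Pool.Agent.TH668.Orf

open MvPolynomial Module Pool.Agent.H530R2 Pool.Agent.W943

universe v

section def'

variable {F : Type v} [Field F] (𝔎 : FamO F) {n : ℕ}

/-- jets of a family of formulas -/
def JS {τ : Type} {ρ : ℕ} (κ : Fin ρ → Fin n) (T : τ → Tr F n) (l : ℕ) :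
    Set (MvPolynomial (Fin n) F) := ⋃ q : τ, Set.range (jet κ (T q).val l)

/-- polynomials of bounded rank in the jets of formulas and members of the class -/
def OutT (n W : ℕ) : Set (MvPolynomial (Fin n) F) :=
  {f | ∃ (τ : Type) (_ : Fintype τ) (T : τ → Tr F n) (ρ l : ℕ) (κ : Fin ρ → Fin n) (ι : Type)
    (_ : Fintype ι) (P : ι → MvPolynomial (Fin n) F), Fintype.card τ ≤ W ∧ ρ ≤ W ∧ l ≤ W ∧
    Fintype.card ι ≤ W ∧ (∀ q, Gd (𝔎.K n W) W (T q)) ∧ (∀ q, (T q).rk ≤ W) ∧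
    (∀ i, P i ∈ 𝔎.K n W) ∧ f ∈ Algebra.adjoin F (JS κ T l ∪ Set.range P) ∧ ∀ i, Bdl i W f}

variable {𝔎}

theorem OutT.mono {W W' : ℕ} (h : W ≤ W') : OutT 𝔎 n W ⊆ OutT 𝔎 n W' := by
  rintro f ⟨τ, i0, T, ρ, l, κ, ι, i1, P, h0, h1, h2, h3, h4, h4', h5, h6, h7⟩
  exact ⟨τ, i0, T, ρ, l, κ, ι, i1, P, h0.trans h, h1.trans h, h2.trans h, h3.trans h,
    fun q => ⟨(h4 q).1, (h4 q).2.1.mono (𝔎.mono h), fun i => ((h4 q).2.2 i).trans h⟩,
    fun q => (h4' q).trans h,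
    fun i => 𝔎.mono h (h5 i), h6, fun i => (h7 i).mono h⟩

theorem OutT.bdd {W : ℕ} {f : MvPolynomial (Fin n) F} (hf : f ∈ OutT 𝔎 n W) (i : Fin n) :
    Bdl i W f := by
  obtain ⟨τ, i0, T, ρ, l, κ, ι, i1, P, h0, h1, h2, h3, h4, h4', h5, h6, h7⟩ := hf
  exact h7 i

theorem OutT.comb {k W W'' : ℕ} {σ : Type} [Fintype σ] {h : σ → MvPolynomial (Fin n) F}
    {f : MvPolynomial (Fin n) F} (hσ : Fintype.card σ ≤ k) (hh : ∀ i, h i ∈ OutT 𝔎 n W)
    (hf : f ∈ Algebra.adjoin F (Set.range h)) (hb : ∀ i, Bdl i W'' f) :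
    f ∈ OutT 𝔎 n (k * W + W + W'') := by
  classical
  choose τ i0 T ρ l κ ι i1 P h0 h1 h2 h3 h4 h4' h5 h6 _ using hh
  have key : ∀ (φ : σ → ℕ), (∀ i, φ i ≤ W) → ∑ i, φ i ≤ k * W := by
    intro φ hφ
    calc ∑ i, φ i ≤ ∑ _i : σ, W := Finset.sum_le_sum fun i _ => hφ i
      _ = Fintype.card σ * W := by rw [Finset.sum_const, Finset.card_univ, smul_eq_mul]
      _ ≤ k * W := Nat.mul_le_mul_right _ hσ
  have hc0 : Fintype.card ((i : σ) × τ i) ≤ k * W := by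
    rw [Fintype.card_sigma]
    exact key _ h0
  have hc1 : Fintype.card ((i : σ) × Fin (ρ i)) ≤ k * W := by
    rw [Fintype.card_sigma]
    refine key _ fun i => ?_
    rw [Fintype.card_fin]
    exact h1 i
  have hc2 : Fintype.card ((i : σ) × ι i) ≤ k * W := by
    rw [Fintype.card_sigma]
    exact key _ h3
  have hle : W ≤ k * W + W + W'' := by omega
  refine ⟨(i : σ) × τ i, inferInstance, fun x => T x.1 x.2,
    Fintype.card ((i : σ) × Fin (ρ i)), W,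
    fun q => κ ((Fintype.equivFin _).symm q).1 ((Fintype.equivFin _).symm q).2,
    (i : σ) × ι i, inferInstance, fun x => P x.1 x.2, by omega, by omega, by omega, by omega,
    fun x => ⟨(h4 x.1 x.2).1, (h4 x.1 x.2).2.1.mono (𝔎.mono hle),
      fun i => ((h4 x.1 x.2).2.2 i).trans hle⟩, fun x => (h4' x.1 x.2).trans hle,
    fun x => 𝔎.mono hle (h5 x.1 x.2), ?_, fun i => (hb i).mono (Nat.le_add_left _ _)⟩
  refine (Algebra.adjoin_le ?_) hf
  rintro _ ⟨i, rfl⟩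
  refine Algebra.adjoin_mono ?_ (h6 i)
  apply Set.union_subset_union
  · apply Set.iUnion_subset
    intro q
    refine Set.Subset.trans ?_ (Set.subset_iUnion _ (⟨i, q⟩ : (i : σ) × τ i))
    refine (jet_range_dir ?_ _ (l i)).trans (jet_range_mono _ _ (h2 i))
    rintro _ ⟨q', rfl⟩
    refine ⟨Fintype.equivFin _ (⟨i, q'⟩ : (i : σ) × Fin (ρ i)), ?_⟩
    beta_reduce
    rw [Equiv.symm_apply_apply]
  · rintro _ ⟨x, rfl⟩
    exact ⟨⟨i, x⟩, rfl⟩

theorem OutT.add {W W' : ℕ} {f f' : MvPolynomial (Fin n) F} (hf : f ∈ OutT 𝔎 n W)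
    (hf' : f' ∈ OutT 𝔎 n W') :
    f + f' ∈ OutT 𝔎 n (2 * (W + W') + (W + W') + (W + W')) := by
  refine OutT.comb (σ := Fin 2) (h := ![f, f']) (by rw [Fintype.card_fin]) ?_ ?_
    fun i => (OutT.bdd hf i).addO (OutT.bdd hf' i)
  · intro i
    fin_cases i
    exacts [OutT.mono (Nat.le_add_right _ _) hf, OutT.mono (Nat.le_add_left _ _) hf']
  · exact Subalgebra.add_mem _ (Algebra.subset_adjoin ⟨0, rfl⟩) (Algebra.subset_adjoin ⟨1, rfl⟩)

theorem OutT.mul {W W' : ℕ} {f f' : MvPolynomial (Fin n) F} (hf : f ∈ OutT 𝔎 n W)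
    (hf' : f' ∈ OutT 𝔎 n W') :
    f * f' ∈ OutT 𝔎 n (2 * (W + W') + (W + W') + W * W') := by
  refine OutT.comb (σ := Fin 2) (h := ![f, f']) (by rw [Fintype.card_fin]) ?_ ?_
    fun i => (OutT.bdd hf i).mul (OutT.bdd hf' i)
  · intro i
    fin_cases i
    exacts [OutT.mono (Nat.le_add_right _ _) hf, OutT.mono (Nat.le_add_left _ _) hf']
  · exact Subalgebra.mul_mem _ (Algebra.subset_adjoin ⟨0, rfl⟩) (Algebra.subset_adjoin ⟨1, rfl⟩)

theorem OutT.const (c : F) : (C c : MvPolynomial (Fin n) F) ∈ OutT 𝔎 n 1 :=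
  ⟨Empty, inferInstance, Empty.elim, 0, 0, Fin.elim0, Empty, inferInstance, Empty.elim,
    by simp, Nat.zero_le _, Nat.zero_le _, by simp, fun i => i.elim, fun i => i.elim,
    fun i => i.elim, Subalgebra.algebraMap_mem _ c, fun _ => Bdl.const c⟩

theorem OutT.ofK {W W' : ℕ} (hW : W ≤ W') (hW' : 1 ≤ W') (hb : 𝔎.bd W ≤ W')
    {f : MvPolynomial (Fin n) F} (hf : f ∈ 𝔎.K n W) : f ∈ OutT 𝔎 n W' :=
  ⟨Empty, inferInstance, Empty.elim, 0, 0, Fin.elim0, Unit, inferInstance, fun _ => f,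
    by simp, Nat.zero_le _, Nat.zero_le _, by simpa using hW', fun i => i.elim, fun i => i.elim,
    fun _ => 𝔎.mono hW hf, Algebra.subset_adjoin (Or.inr ⟨(), rfl⟩),
    fun i => (𝔎.bd_mem hf i).mono hb⟩

theorem OutT.ofVal {W : ℕ} (hW : 1 ≤ W) {T : Tr F n} (hT : Gd (𝔎.K n W) W T) (hr : T.rk ≤ W)
    {W' : ℕ} (hW' : W ≤ W') (hb : rb (𝔎.bd W) W ≤ W') : T.val ∈ OutT 𝔎 n W' :=
  ⟨Unit, inferInstance, fun _ => T, 0, 0, Fin.elim0, Empty, inferInstance, Empty.elim,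
    by simpa using hW.trans hW', Nat.zero_le _, Nat.zero_le _, by simp,
    fun _ => ⟨hT.1, hT.2.1.mono (𝔎.mono hW'), fun i => (hT.2.2 i).trans hW'⟩,
    fun _ => hr.trans hW', fun i => i.elim,
    Algebra.subset_adjoin (Or.inl (Set.mem_iUnion.2 ⟨(), ⟨(), rfl⟩⟩)),
    fun i => (rank_val i (fun _ hg => 𝔎.bd_mem hg i) hT.1 hT.2.1 (hT.2.2 i)).mono hb⟩

theorem OutT.der {W : ℕ} (k : Fin n) {f : MvPolynomial (Fin n) F} (hf : f ∈ OutT 𝔎 n W) :
    pderiv k f ∈ OutT 𝔎 n (2 * W + 1 + 𝔎.der W) := by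
  classical
  obtain ⟨τ, i0, T, ρ, l, κ, ι, i1, P, h0, h1, h2, h3, h4, h4', h5, h6, h7⟩ := hf
  have hle : W ≤ 2 * W + 1 + 𝔎.der W := by omega
  refine ⟨τ, i0, T, ρ + 1, l + 1, Fin.cons k κ, ι ⊕ ι, inferInstance,
    Sum.elim P (fun i => pderiv k (P i)), by omega, by omega, by omega,
    by rw [Fintype.card_sum]; omega,
    fun q => ⟨(h4 q).1, (h4 q).2.1.mono (𝔎.mono hle), fun i => ((h4 q).2.2 i).trans hle⟩,
    fun q => (h4' q).trans hle, ?_, ?_, fun i => ((h7 i).pd k).mono (by omega)⟩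
  · rintro (i | i)
    · exact 𝔎.mono (by omega) (h5 i)
    · exact 𝔎.mono (by omega) (𝔎.der_mem k (h5 i))
  · have hsub : ∀ q, Set.range (H530R2.jet κ (T q).val l) ⊆
        Set.range (H530R2.jet (Fin.cons k κ : Fin (ρ + 1) → Fin n) (T q).val l) := by
      intro q
      apply jet_range_dir
      rintro _ ⟨q, rfl⟩
      exact ⟨q.succ, by rw [Fin.cons_succ]⟩
    refine pderiv_mem_of_adjoin k ?_ ?_ h6
    · rintro x (hx | ⟨i, rfl⟩)
      · obtain ⟨q, hq⟩ := Set.mem_iUnion.1 hx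
        exact Algebra.subset_adjoin (Or.inl (Set.mem_iUnion.2
          ⟨q, jet_range_succ _ _ _ (hsub q hq)⟩))
      · exact Algebra.subset_adjoin (Or.inr ⟨Sum.inl i, rfl⟩)
    · rintro x (hx | ⟨i, rfl⟩)
      · obtain ⟨q, hq⟩ := Set.mem_iUnion.1 hx
        have h6 := jet_pderiv (Fin.cons k κ : Fin (ρ + 1) → Fin n) (T q).val l 0 (hsub q hq)
        rw [Fin.cons_zero] at h6
        exact Algebra.subset_adjoin (Or.inl (Set.mem_iUnion.2 ⟨q, h6⟩))
      · exact Algebra.subset_adjoin (Or.inr ⟨Sum.inr i, rfl⟩)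

end def'

section seeds

variable {F : Type v} [Field F] [CharZero F]

theorem Rgo.ofVal {n : ℕ} {V : DChain F n} {L : Set (MvPolynomial (Fin n) F)} {K s t : ℕ}
    (hs : 1 ≤ s) (hV : ValO V L K K t s) {T : Tr F n} (h1 : Gd L K T) (h3 : T.rk ≤ t) :
    Rgo (sc V s hs) 1 ∅ T := by
  have h5 := hV.reg h1 h3 (Y := ∅) (fun i _ => h1.2.2 i)
  clear * - h5
  induction T with
  | leaf g => trivial
  | gate γ a b iha ihb =>
    refine ⟨iha h5.1, ihb h5.2.1, fun i h0 Y' hY' hc => ?_⟩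
    exact h5.2.2 i h0 Y' hY' (le_sc hs (by omega) Y' hc)

/-- the parameter of the members of the family of `c` formulas -/
noncomputable def pt (F : Type v) [Field F] [CharZero F] (p : CstO) (W c : ℕ) : ℕ :=
  (CstO.trees F W W 1 W p c).1.dW (CstO.tv F W W 1 W p c) W + (CstO.trees F W W 1 W p c).2

/-- the level for `c` formulas -/
noncomputable def lt' (F : Type v) [Field F] [CharZero F] (p : CstO) (W c : ℕ) : ℕ :=
  (CstO.trees F W W 1 W p c).1.em (W * (W + 1) ^ W + W) (pt F p W c) +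
    (W * (W + 1) ^ W + W) * W + 1

theorem OutT.seeds (𝔎 : FamO F) (W : ℕ) : ∃ m : ℕ, ∀ (n : ℕ) (V : DChain F n),
    ∀ f ∈ OutT 𝔎 n W, ∀ Y : Finset (Fin n), f ∈ V.O m Y → f = 0 := by
  classical
  obtain ⟨m, hm, hV⟩ := ValO.all F (cst 𝔎) W W W
  have hs : 1 ≤ m * (W + 1) := Nat.mul_pos hm (Nat.succ_pos W)
  refine ⟨(∑ c ∈ Finset.range (W + 1), lt' F (cst 𝔎) W c) * (m * (W + 1)), ?_⟩
  rintro n V f ⟨τ, i0, T, ρ, l, κ, ι, i1, P, h0, h1, h2, h3, h4, h4', h5, h6, h7⟩ Y hmem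
  set c := Fintype.card τ with hc
  set e := Fintype.equivFin τ with he
  obtain ⟨𝔏', hL1, hL2⟩ := ((ofFam 𝔎 V).scale (m * (W + 1)) hs).trees W W 1 W c
    (fun q => T (e.symm q)) (fun q => h4 _) (fun q i _ => (h4 _).2.2 i)
    (fun q => Rgo.ofVal hs (hV n V (ofFam 𝔎 V) W) (h4 _) (h4' _))
  have hpow : (ρ + 1) ^ l ≤ (W + 1) ^ W :=
    (Nat.pow_le_pow_left (by omega) _).trans (Nat.pow_le_pow_right (by omega) h2)
  refine (𝔏'.weaken (Finset.empty_subset Y)).zero_free (W := pt F (cst 𝔎) W c)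
    (r := W * (W + 1) ^ W + W) (b := W) (ι := (τ × JI ρ l) ⊕ ι)
    (H := Sum.elim (fun x => jet κ (T x.1).val l x.2) P) ?_ ?_ le_rfl h7 ?_ ?_
  · rintro (⟨q, x⟩ | i)
    · have h8 := 𝔏'.jet_mem κ (hL2 (e q)) x
      simp only [Equiv.symm_apply_apply] at h8
      exact 𝔏'.mono (((CstO.trees F W W 1 W (cst 𝔎) c).1.dW_mono _ h2).trans
        (Nat.le_add_right _ _)) h8
    · exact 𝔏'.mono (Nat.le_add_left _ _) (hL1 (h5 i))
  · rw [Fintype.card_sum, Fintype.card_prod, JI.card]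
    exact Nat.add_le_add (Nat.mul_le_mul h0 hpow) h3
  · refine Algebra.adjoin_mono ?_ h6
    rintro x (hx | ⟨i, rfl⟩)
    · obtain ⟨q, y, rfl⟩ := Set.mem_iUnion.1 hx
      exact Or.inl ⟨Sum.inl (q, y), rfl⟩
    · exact Or.inl ⟨Sum.inr i, rfl⟩
  · refine sc_le hs ?_ Y hmem
    refine le_trans ?_ (Nat.le_succ _)
    refine Nat.mul_le_mul_right _ ?_
    exact Finset.single_le_sum (f := fun c => lt' F (cst 𝔎) W c)
      (fun _ _ => Nat.zero_le _) (Finset.mem_range.2 (Nat.lt_succ_of_le h0))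

/-- the family generated by the values of formulas -/
def nextT (𝔎 : FamO F) : FamO F where
  K := OutT 𝔎
  mono := OutT.mono
  cc := 1
  const_mem := OutT.const
  ad W W' := 2 * (W + W') + (W + W') + (W + W')
  add_mem := OutT.add
  ml W W' := 2 * (W + W') + (W + W') + W * W'
  mul_mem := OutT.mul
  der W := 2 * W + 1 + 𝔎.der W
  der_mem := fun k _ hf => OutT.der k hf
  bd W := W
  bd_mem := fun hf i => OutT.bdd hf i
  seeds := OutT.seeds 𝔎

end seeds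

end Pool.Agent.TH668.Orf
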